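import Pool.Agent.MP_959362_pr.H69.Steps

namespace Pool.Agent.MP_959362_pr.H69

open MeasureTheory Metric Set

variable {d : ℕ}

lemma U_congr (p : Torus d) (R : ℝ) (I : Finset ℕ) {x z : ℕ → Torus d} (h : ∀ s ∈ I, z s = x s) :
    U p R I z = U p R I x := by
  ext w
  simp only [U, mem_ofPred_eq, and_congr_right_iff]
  intro _
  exact forall₂_congr fun s hs => by rw [h s hs]

lemma Par.Bad_congr (P : Par d) (τ : ℕ → ℕ) (k j : ℕ) {x z : ℕ → Torus d}
    (e : ∀ l, z (τ l) = x (τ l)) (h : ∀ s ∈ blk τ j, z s = x s) :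
    P.Bad τ k j z = P.Bad τ k j x := by
  unfold Par.Bad
  simp only [e, U_congr _ _ _ h]

namespace IsPath

variable {P : Par d} {k : ℕ} {τ : ℕ → ℕ} (h : IsPath P k τ)
include h

lemma sum_inv_le {j : ℕ} (hj : j + 1 ≤ k) :
    ∑ i ∈ Finset.Icc (j + 1) k, 1 / (16 * (τ i : ℝ)) ≤ 1 / (8 * τ (j + 1)) := by
  have h6 := h.six_le (j := j + 1) (by omega) hj
  have hτ : (0 : ℝ) < τ (j + 1) := by exact_mod_cast (by omega : 0 < τ (j + 1))
  rw [← Finset.Ico_add_one_right_eq_Icc, Finset.sum_Ico_eq_sum_range]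
  have h1 : ∀ m ∈ Finset.range (k + 1 - (j + 1)),
      1 / (16 * (τ (j + 1 + m) : ℝ)) ≤ 1 / (16 * τ (j + 1)) * (1 / 2) ^ m := by
    intro m hm
    rw [Finset.mem_range] at hm
    have h2 : (2 : ℝ) ^ m * τ (j + 1) ≤ τ (j + 1 + m) := by
      exact_mod_cast h.pow_mul_le (i := j + 1) (j := m) (by omega)
    rw [one_div_pow, div_mul_div_comm, mul_one]
    apply one_div_le_one_div_of_le (by positivity)
    linarith
  refine (Finset.sum_le_sum h1).trans ?_
  rw [← Finset.mul_sum]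
  have h3 := sum_geometric_two_le (k + 1 - (j + 1))
  refine (mul_le_mul_of_nonneg_left h3 (by positivity)).trans (le_of_eq ?_)
  field_simp
  norm_num

lemma volume_Bad_le {j : ℕ} (hj : j + 1 ≤ k) {x : ℕ → Torus d} (hG : P.G τ k x)
    (hS : P.S τ j x) : volume (P.Bad τ k j x) ≤ ENNReal.ofReal (1 / (4 * τ (j + 1))) := by
  have h6 := h.six_le (j := j + 1) (by omega) hj
  have hτ : (0 : ℝ) < τ (j + 1) := by exact_mod_cast (by omega : 0 < τ (j + 1))
  have b1 : volume (⋃ i ∈ Finset.Icc (j + 1) k, {w | tdist w (x (τ i)) ≤ P.ρ (τ i)}) ≤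
      ENNReal.ofReal (1 / (8 * τ (j + 1))) := by
    refine (measure_biUnion_finset_le _ _).trans ?_
    refine le_trans (Finset.sum_le_sum fun i hi => ?_)
      ((ENNReal.ofReal_sum_of_nonneg (f := fun i => 1 / (16 * (τ i : ℝ)))
        fun i _ => by positivity).symm.le.trans (ENNReal.ofReal_le_ofReal (h.sum_inv_le hj)))
    rw [Finset.mem_Icc] at hi
    have := h.six_le (j := i) (by omega) hi.2
    rw [← P.ρ_vol _ (by omega)]
    exact volume_tball_le _ (h.ρ_pos (by omega) hi.2).le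
  have b2 : volume {w | tdist w (x (τ j)) ≤ P.R j ∧ tdist w (x (τ (j + 1))) ≤ P.R j} ≤
      ENNReal.ofReal (1 / (16 * τ (j + 1))) := by
    rw [← P.ρ_vol _ (by omega)]
    have a1 := h.tdist_eq le_rfl hG (i := j + 1) (l := j) hj (by omega)
    have a2 := (hG.2 j (by omega)).1
    have a3 := (hG.2 j (by omega)).2.1
    have a4 := h.ρ_le' hj
    have a5 := h.ρ_pos (j := j + 1) (by omega) hj
    refine volume_tlens_le _ _ (by linarith [P.R_le j]) (by linarith) a5.le ?_
    rw [a1]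
    have e1 := pow_le_pow_left₀ (P.R_pos j).le (h.R_le hj) 2
    have e2 := pow_le_pow_left₀ (by positivity) a2 2
    nlinarith
  have b3 : volume (U (x (τ j)) (P.R j) (blk τ j) x) ≤ ENNReal.ofReal (1 / (16 * τ (j + 1))) := by
    refine le_trans hS (ENNReal.ofReal_le_ofReal ?_)
    have h1 : 2 * τ (j + 1) ≤ P.T * P.M ^ (j + 2) := h.up (j + 1) (by omega) hj
    have h2 : (2 : ℝ) * τ (j + 1) ≤ P.T * P.M ^ (j + 2) := by exact_mod_cast h1
    apply one_div_le_one_div_of_le (by positivity)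
    linarith
  refine ((measure_union_le _ _).trans (add_le_add ((measure_union_le _ _).trans
    (add_le_add b1 b2)) b3)).trans (le_of_eq ?_)
  rw [← ENNReal.ofReal_add (by positivity) (by positivity),
    ← ENNReal.ofReal_add (by positivity) (by positivity)]
  congr 1
  field_simp
  norm_num

lemma card_blk {j : ℕ} (hj : j + 1 ≤ k) : P.T * P.M ^ (j + 1) ≤ 4 * (blk τ (j + 1)).card ∧
    (blk τ (j + 1)).card ≤ τ (j + 1) := by
  simp only [blk, Nat.card_Ioo]
  have h1 := h.lo (j + 1) (by omega) hj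
  have h2 := P.six_le j
  refine ⟨?_, by omega⟩
  rcases Nat.eq_zero_or_pos j with rfl | h0
  · rw [h.h0]
    simp only [zero_add, Nat.zero_le, sup_of_le_right] at h1 h2 ⊢
    omega
  · have h3 := h.up j h0 (by omega)
    have h4 := h.six_le h0 (by omega)
    rw [max_eq_left (by omega)]
    omega

lemma prob_not_S {j : ℕ} (hj : j + 1 ≤ k) (p : Torus d) :
    PP d {y | ENNReal.ofReal (1 / (32 * (P.T * P.M ^ (j + 1 + 2)))) <
      volume (U p (P.R (j + 1)) (blk τ (j + 1)) y)} ≤ ENNReal.ofReal (1 / 4) := by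
  have h1 := (h.card_blk hj).1
  have h2 := P.six_le j
  have hR := P.R_pos (j + 1)
  have hom := om_pos (d := d)
  have hT : (0 : ℝ) < P.T := by exact_mod_cast (by have := P.hT; omega : 0 < P.T)
  have hM : (0 : ℝ) < P.M := by exact_mod_cast (by have := P.hM; omega : 0 < P.M)
  refine (PP_volume_U_gt P.d_pos p _ _ (by omega) (u := om d * P.R (j + 1) ^ d) (by positivity)
    (V_small hR (by linarith [P.R_le (j + 1)])).symm.le (by positivity)).trans
    (ENNReal.ofReal_le_ofReal ?_)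
  have h3 : om d * P.R (j + 1) ^ d = (21 / 20) ^ d / (16 * (P.T * P.M ^ (j + 1 + 2))) := by
    rw [Par.R, mul_pow, mul_left_comm, P.ρ_vol _ (P.TM_pos _)]
    push_cast
    ring
  rw [h3]
  have h4 : (P.T : ℝ) * P.M ^ (j + 1) ≤ 4 * ((blk τ (j + 1)).card : ℝ) := by exact_mod_cast h1
  set N : ℝ := ((blk τ (j + 1)).card : ℝ)
  set A : ℝ := P.T * P.M ^ (j + 1) with hA
  have hA0 : 0 < A := by positivity
  have hN : 0 < N := by linarith
  have h5 : (P.T : ℝ) * P.M ^ (j + 1 + 2) = A * P.M ^ 2 := by rw [hA]; ring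
  rw [h5]
  set D : ℝ := (21 / 20) ^ d
  have hD : 2 ^ 18 * (P.M : ℝ) ^ 4 ≤ D := P.hd1
  have hD0 : 0 < D := lt_of_lt_of_le (by positivity) hD
  have h6 : 8 / (N ^ 2 * (D / (16 * (A * P.M ^ 2))) * (1 / (32 * (A * P.M ^ 2)))) =
      4096 * (A ^ 2 * P.M ^ 4) / (N ^ 2 * D) := by
    field_simp
    norm_num
  rw [h6, div_le_div_iff₀ (by positivity) (by norm_num)]
  have h7 : A ^ 2 ≤ 16 * N ^ 2 := by nlinarith
  have h8 : A ^ 2 * P.M ^ 4 ≤ 16 * N ^ 2 * P.M ^ 4 := mul_le_mul_of_nonneg_right h7 (by positivity)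
  have h9 : N ^ 2 * (2 ^ 18 * (P.M : ℝ) ^ 4) ≤ N ^ 2 * D := mul_le_mul_of_nonneg_left hD (by positivity)
  nlinarith

lemma block_step {j : ℕ} (hj : j + 1 ≤ k) :
    ENNReal.ofReal (1 / 2) * PP d {x | P.Ev τ k j x} ≤ PP d {x | P.Ev τ k (j + 1) x} := by
  refine resample_bound (blk τ (j + 1)) _ _ _ fun x hx => ?_
  obtain ⟨hG, hA, hS⟩ : P.Ev τ k j x := hx
  set X1 : Set (ℕ → Torus d) := ⋃ t ∈ blk τ (j + 1), {y | y t ∈ P.Bad τ k j x}
  set X2 : Set (ℕ → Torus d) := {y | ENNReal.ofReal (1 / (32 * (P.T * P.M ^ (j + 1 + 2)))) <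
      volume (U (x (τ (j + 1))) (P.R (j + 1)) (blk τ (j + 1)) y)}
  have b1 : PP d X1 ≤ ENNReal.ofReal (1 / 4) := by
    refine (measure_biUnion_finset_le _ _).trans ((Finset.sum_le_sum fun t _ =>
      (PP_eval_le t _).trans (h.volume_Bad_le hj hG hS)).trans ?_)
    rw [Finset.sum_const, nsmul_eq_mul, ← ENNReal.ofReal_natCast,
      ← ENNReal.ofReal_mul (by positivity)]
    apply ENNReal.ofReal_le_ofReal
    have h6 := h.six_le (j := j + 1) (by omega) hj
    have hτ : (0 : ℝ) < τ (j + 1) := by exact_mod_cast (by omega : 0 < τ (j + 1))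
    have h1 : ((blk τ (j + 1)).card : ℝ) ≤ τ (j + 1) := by exact_mod_cast (h.card_blk hj).2
    rw [mul_one_div, div_le_div_iff₀ (by positivity) (by norm_num)]
    linarith
  have b2 : PP d X2 ≤ ENNReal.ofReal (1 / 4) := h.prob_not_S hj _
  have hcover : (univ : Set (ℕ → Torus d)) ⊆
      ({y | (blk τ (j + 1)).piecewise y x ∈ {x | P.Ev τ k (j + 1) x}} ∪ X1) ∪ X2 := by
    intro y _
    by_cases y1 : y ∈ X1
    · exact Or.inl (Or.inr y1)
    by_cases y2 : y ∈ X2
    · exact Or.inr y2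
    refine Or.inl (Or.inl ?_)
    show P.Ev τ k (j + 1) ((blk τ (j + 1)).piecewise y x)
    set z := (blk τ (j + 1)).piecewise y x with hz
    have ez : ∀ t, t ∉ blk τ (j + 1) → z t = x t := fun t ht =>
      Finset.piecewise_eq_of_notMem _ _ _ ht
    have ey : ∀ t ∈ blk τ (j + 1), z t = y t := fun t ht => Finset.piecewise_eq_of_mem _ _ _ ht
    have eτ : ∀ l, z (τ l) = x (τ l) := fun l => ez _ fun hl => (h.mem_blk hj hl).2.1 l rfl
    have eb : ∀ i ≤ j, ∀ s ∈ blk τ i, z s = x s := fun i hi s hs => ez _ fun hl =>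
      lt_irrefl _ (h.blk_lt (by omega) hj hs hl)
    refine ⟨h.G_congr h.hk (eb 0 (by omega) 1 (by simp [blk])) (eb 0 (by omega) 2 (by simp [blk]))
      (fun l _ => eτ l) hG, fun i hi t ht => ?_, ?_⟩
    · rw [P.Bad_congr τ k i eτ (eb i (by omega))]
      rcases (Nat.lt_succ_iff.1 hi).eq_or_lt with rfl | hi
      · rw [ey t ht]
        exact fun hb => y1 (mem_biUnion ht hb)
      · rw [eb (i + 1) hi t ht]
        exact hA i hi t ht
    · unfold Par.S
      rw [eτ, U_congr _ _ _ ey]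
      exact not_lt.1 y2
  have h1 := (measure_mono (μ := PP d) hcover).trans ((measure_union_le _ _).trans
    (add_le_add ((measure_union_le _ _).trans (add_le_add le_rfl b1)) b2))
  have h2 : (1 : ENNReal) = (ENNReal.ofReal (1 / 2) + ENNReal.ofReal (1 / 4)) +
      ENNReal.ofReal (1 / 4) := by
    rw [← ENNReal.ofReal_add (by norm_num) (by norm_num),
      ← ENNReal.ofReal_add (by norm_num) (by norm_num)]
    norm_num
  rw [measure_univ, h2] at h1
  exact ENNReal.le_of_add_le_add_right ENNReal.ofReal_ne_top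
    (ENNReal.le_of_add_le_add_right ENNReal.ofReal_ne_top h1)

lemma prob_Ev {j : ℕ} (hj : j ≤ k) :
    ENNReal.ofReal ((1 / 2) ^ j) * PP d {x | P.G τ k x} ≤ PP d {x | P.Ev τ k j x} := by
  induction j with
  | zero =>
    simp only [pow_zero, ENNReal.ofReal_one, one_mul]
    exact measure_mono fun x hx => ⟨hx, fun i hi => by omega, h.S_zero hx.1⟩
  | succ j ih =>
    refine le_trans ?_ (h.block_step hj)
    rw [pow_succ', ENNReal.ofReal_mul (by norm_num), mul_assoc]
    exact mul_le_mul_right (ih (by omega)) _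

end IsPath

end Pool.Agent.MP_959362_pr.H69
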