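import Pool.Agent.MP_959362_pr.H69.GoodEv

namespace Pool.Agent.MP_959362_pr.H69

open MeasureTheory Metric Set

variable {d : ℕ}

lemma harmonic_block {N : ℕ} (hN : 0 < N) (L : ℕ) :
    (L : ℝ) / 2 ≤ ∑ w ∈ Finset.Ico N (N * 2 ^ L), 1 / (w : ℝ) := by
  induction L with
  | zero => simp
  | succ L ih =>
    have h1 : N ≤ N * 2 ^ L := Nat.le_mul_of_pos_right _ (by positivity)
    have h0 : N * 2 ^ (L + 1) = 2 * (N * 2 ^ L) := by ring
    rw [← Finset.sum_Ico_consecutive _ h1 (by omega : N * 2 ^ L ≤ N * 2 ^ (L + 1)), h0]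
    set A := N * 2 ^ L
    have hA : (0 : ℝ) < A := by exact_mod_cast (by omega : 0 < A)
    have h2 : ∀ w ∈ Finset.Ico A (2 * A), 1 / (2 * (A : ℝ)) ≤ 1 / (w : ℝ) := by
      intro w hw
      rw [Finset.mem_Ico] at hw
      have a1 : (0 : ℝ) < w := by exact_mod_cast (by omega : 0 < w)
      have a2 : (w : ℝ) ≤ 2 * A := by exact_mod_cast hw.2.le
      exact one_div_le_one_div_of_le a1 a2
    have h3 := Finset.card_nsmul_le_sum _ _ _ h2
    rw [Nat.card_Ico, show 2 * A - A = A by omega, nsmul_eq_mul] at h3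
    have h4 : (A : ℝ) * (1 / (2 * A)) = 1 / 2 := by field_simp
    push_cast
    linarith

def pathOf (a : ℕ) {m : ℕ} (v : Fin m → ℕ) (j : ℕ) : ℕ :=
  if j = 1 then a else if h : 2 ≤ j ∧ j - 2 < m then v ⟨j - 2, h.2⟩ else 0

lemma pathOf_add_two (a : ℕ) {m : ℕ} (v : Fin m → ℕ) (i : Fin m) : pathOf a v (i + 2) = v i := by
  unfold pathOf
  rw [if_neg (by omega), dif_pos ⟨by omega, by simp⟩]
  simp

def win (T L : ℕ) (j : ℕ) : Finset ℕ :=
  Finset.Ico (T * (2 ^ (L + 1)) ^ j) (T * (2 ^ (L + 1)) ^ j * 2 ^ L)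

lemma isPath_pathOf (P : Par d) {L : ℕ} (hM : P.M = 2 ^ (L + 1)) {m : ℕ} {v : Fin m → ℕ}
    (hv : v ∈ Fintype.piFinset fun i : Fin m => win P.T L (i + 2)) :
    IsPath P (m + 1) (pathOf (P.T * P.M) v) := by
  rw [Fintype.mem_piFinset] at hv
  have hw : ∀ j, 2 ≤ j → j ≤ m + 1 → pathOf (P.T * P.M) v j ∈ win P.T L j := by
    intro j h2 hj
    obtain ⟨i, rfl⟩ : ∃ i, j = i + 2 := ⟨j - 2, by omega⟩
    have := hv ⟨i, by omega⟩
    rwa [← pathOf_add_two (P.T * P.M) v] at this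
  have h1 : pathOf (P.T * P.M) v 1 = P.T * P.M := by simp [pathOf]
  refine ⟨by simp [pathOf], h1, by omega, fun j h2 hj => ?_, fun j h2 hj => ?_, fun j hj => ?_⟩
  · rcases h2.eq_or_lt with rfl | h2
    · rw [h1, pow_one]
    · have := hw j h2 hj
      rw [win, Finset.mem_Ico, ← hM] at this
      exact this.1
  · rcases h2.eq_or_lt with rfl | h2
    · rw [h1]
      have := P.hM
      calc 2 * (P.T * P.M) ≤ P.M * (P.T * P.M) := Nat.mul_le_mul_right _ this
        _ = P.T * P.M ^ (1 + 1) := by ring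
    · have := hw j h2 hj
      rw [win, Finset.mem_Ico, ← hM] at this
      calc 2 * pathOf (P.T * P.M) v j ≤ 2 * (P.T * P.M ^ j * 2 ^ L) :=
            Nat.mul_le_mul_left _ this.2.le
        _ = P.T * P.M ^ j * 2 ^ (L + 1) := by ring
        _ = P.T * P.M ^ (j + 1) := by rw [← hM]; ring
  · unfold pathOf
    rw [if_neg (by omega), dif_neg (by omega)]

lemma sum_indicator_le (P : Par d) {L : ℕ} (hM : P.M = 2 ^ (L + 1)) (m n : ℕ)
    (hn : P.T * P.M ^ (m + 2) ≤ n) (x : ℕ → Torus d) :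
    ∑ v ∈ Fintype.piFinset fun i : Fin m => win P.T L (i + 2),
      Set.indicator {x | Good (pathOf (P.T * P.M) v) (m + 1) x} (1 : (ℕ → Torus d) → ENNReal) x ≤
      (uncoveredCount n x : ENNReal) := by
  classical
  simp only [Set.indicator_apply, mem_ofPred_eq, Pi.one_apply]
  rw [Finset.sum_boole, uncoveredCount_eq]
  refine Nat.cast_le.2 (Finset.card_le_card_of_injOn (fun v => pathOf (P.T * P.M) v (m + 1))
    (fun v hv => ?_) fun v hv v' hv' e => ?_)
  · simp only [Finset.coe_filter, mem_ofPred_eq] at hv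
    have hp := isPath_pathOf P hM hv.1
    simp only [Finset.coe_filter, mem_ofPred_eq, Finset.mem_range]
    refine ⟨?_, not_covered_of_good hp.h0 hv.2 n⟩
    have h1 : 2 * pathOf (P.T * P.M) v (m + 1) ≤ P.T * P.M ^ (m + 2) := hp.up _ (by omega) le_rfl
    have h2 := hp.six_le (j := m + 1) (by omega) le_rfl
    omega
  · simp only [Finset.coe_filter, mem_ofPred_eq] at hv hv'
    have hp := isPath_pathOf P hM hv.1
    have hp' := isPath_pathOf P hM hv'.1
    funext i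
    have a1 := iterate_parent hp.h0 hv.2.1 (m + 1 - (i + 2))
    have a2 := iterate_parent hp'.h0 hv'.2.1 (m + 1 - (i + 2))
    have a3 : m + 1 - (m + 1 - (i + 2)) = i + 2 := by omega
    simp only at e
    rw [e, a2, a3, pathOf_add_two, pathOf_add_two] at a1
    exact a1.symm

lemma lintegral_count_ge (P : Par d) {L : ℕ} (hM : P.M = 2 ^ (L + 1)) (hL : 512 ≤ L) {β : ℝ}
    (hβ0 : 0 < β) (hβ : ENNReal.ofReal β ≤ PP d {x | P.Base x}) (m n : ℕ)
    (hn : P.T * P.M ^ (m + 2) ≤ n) :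
    ENNReal.ofReal (β / 2 * 2 ^ m) ≤ ∫⁻ x, (uncoveredCount n x : ENNReal) ∂(PP d) := by
  refine le_trans ?_ (lintegral_mono (sum_indicator_le P hM m n hn))
  have hmeas : ∀ v : Fin m → ℕ, MeasurableSet {x : ℕ → Torus d |
      Good (pathOf (P.T * P.M) v) (m + 1) x} := fun v =>
    measurableSet_setOfPred.2 (measurable_good _ _)
  rw [lintegral_finsetSum _ fun v _ => measurable_one.indicator (hmeas v)]
  simp only [lintegral_indicator_one (hmeas _)]
  refine le_trans ?_ (Finset.sum_le_sum fun v hv =>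
    (isPath_pathOf P hM hv).prob_good hβ (m := m) rfl)
  rw [← ENNReal.ofReal_sum_of_nonneg fun v _ => by positivity]
  apply ENNReal.ofReal_le_ofReal
  have h1 : ∀ v : Fin m → ℕ, ∏ i ∈ Finset.range m, 1 / (64 * (pathOf (P.T * P.M) v (i + 2) : ℝ)) =
      ∏ i : Fin m, 1 / (64 * (v i : ℝ)) := by
    intro v
    rw [Finset.prod_range]
    exact Finset.prod_congr rfl fun i _ => by rw [pathOf_add_two]
  simp only [h1]
  rw [← Finset.mul_sum, ← Finset.mul_sum,
    ← Finset.prod_univ_sum (fun i : Fin m => win P.T L (i + 2)) fun _ w => 1 / (64 * (w : ℝ))]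
  have h2 : ∀ i : Fin m, (4 : ℝ) ≤ ∑ w ∈ win P.T L (i + 2), 1 / (64 * (w : ℝ)) := by
    intro i
    have a1 := harmonic_block (N := P.T * (2 ^ (L + 1)) ^ ((i : ℕ) + 2))
      (by rw [← hM]; exact P.TM_pos _) L
    have a2 : (512 : ℝ) ≤ L := by exact_mod_cast hL
    have a3 : ∑ w ∈ win P.T L (i + 2), 1 / (64 * (w : ℝ)) =
        1 / 64 * ∑ w ∈ win P.T L (i + 2), 1 / (w : ℝ) := by
      rw [Finset.mul_sum]
      exact Finset.sum_congr rfl fun w _ => by rw [div_mul_div_comm, one_mul]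
    rw [a3, win]
    linarith
  have h3 : ∏ _i : Fin m, (4 : ℝ) ≤ ∏ i : Fin m, ∑ w ∈ win P.T L (i + 2), 1 / (64 * (w : ℝ)) :=
    Finset.prod_le_prod (fun _ _ => by norm_num) fun i _ => h2 i
  rw [Finset.prod_const, Finset.card_univ, Fintype.card_fin] at h3
  have h4 : β / 2 * 2 ^ m = (1 / 2) ^ (m + 1) * (β * 4 ^ m) := by
    rw [show (4 : ℝ) = 2 * 2 by norm_num, mul_pow, one_div_pow, pow_succ]
    field_simp
  rw [h4]
  gcongr

lemma le_of_vol (hd : 0 < d) {a b : ℝ} (ha : 0 ≤ a) (hb : 0 ≤ b)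
    (h : om d * a ^ d ≤ om d * b ^ d) : a ≤ b :=
  (pow_le_pow_iff_left₀ ha hb hd.ne').1 (le_of_mul_le_mul_left h om_pos)

lemma exists_par {M : ℕ} (hM : 2 ≤ M) : ∃ d₀ : ℕ, ∀ d ≥ d₀, ∃ P : Par d, P.M = M := by
  have t1 := (tendsto_pow_atTop_atTop_of_one_lt (show (1 : ℝ) < 21 / 20 by norm_num)).eventually
    (Filter.eventually_ge_atTop (2 ^ 18 * (M : ℝ) ^ 4))
  have t2 := (tendsto_self_mul_const_pow_of_lt_one (show (0 : ℝ) ≤ 91 / 100 by norm_num)
    (by norm_num)).eventually (ge_mem_nhds (show (0 : ℝ) < 1 / 3072 by norm_num))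
  obtain ⟨d₀, hd₀⟩ := Filter.eventually_atTop.1 ((t1.and t2).and (Filter.eventually_ge_atTop 2))
  refine ⟨d₀, fun d hd => ?_⟩
  obtain ⟨⟨h1, h2⟩, h3⟩ := hd₀ d hd
  have hd0 : 0 < d := by omega
  have hd' : (0 : ℝ) < d := by exact_mod_cast hd0
  have hom := om_pos (d := d)
  have hM' : (2 : ℝ) ≤ M := by exact_mod_cast hM
  set ρ : ℕ → ℝ := fun v => (1 / (16 * (v : ℝ)) / om d) ^ ((d : ℝ)⁻¹) with hρ
  have ρ_pos : ∀ v, 0 < v → 0 < ρ v := fun v hv => by
    have : (0 : ℝ) < v := by exact_mod_cast hv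
    exact Real.rpow_pos_of_pos (by positivity) _
  have ρ_vol : ∀ v : ℕ, 0 < v → om d * ρ v ^ d = 1 / (16 * v) := fun v hv => by
    rw [hρ]
    simp only
    rw [Real.rpow_inv_natCast_pow (by positivity) hd0.ne']
    field_simp
  set κ : ℝ := (1 / (M : ℝ)) ^ ((d : ℝ)⁻¹) with hκ
  have κ0 : 0 < κ := Real.rpow_pos_of_pos (by positivity) _
  have κ1 : κ < 1 := Real.rpow_lt_one (by positivity)
    (by rw [div_lt_one (by linarith)]; linarith) (by positivity)
  have κd : κ ^ d = 1 / M := Real.rpow_inv_natCast_pow (by positivity) hd0.ne'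
  set c : ℝ := (1 - κ) / 16 with hc
  have c0 : 0 < c := by rw [hc]; linarith
  obtain ⟨T0, hT0⟩ := exists_nat_ge (1 / (16 * (om d * c ^ d)))
  set T := T0 + 3 with hT
  have hT' : (0 : ℝ) < T := by exact_mod_cast (by omega : 0 < T)
  have hT1 : 1 / (16 * (T : ℝ)) ≤ om d * c ^ d := by
    have a1 : (T0 : ℝ) ≤ T := by exact_mod_cast (by omega : T0 ≤ T)
    have a2 := hT0.trans a1
    rw [div_le_iff₀ (by positivity)] at a2 ⊢
    linarith
  have hTM : ∀ j, 0 < T * M ^ j := fun j => by positivity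
  have hgeo : ∀ j, ρ (T * M ^ (j + 1)) ≤ c * κ ^ j := by
    intro j
    refine le_of_vol hd0 (ρ_pos _ (hTM _)).le (by positivity) ?_
    rw [ρ_vol _ (hTM _), mul_pow, ← pow_mul, mul_comm j d, pow_mul, κd, ← mul_assoc]
    refine le_trans ?_ (mul_le_mul_of_nonneg_right hT1 (by positivity))
    rw [one_div_pow, div_mul_div_comm, mul_one]
    apply one_div_le_one_div_of_le (by positivity)
    push_cast
    rw [pow_succ]
    have : (0 : ℝ) < T * M ^ j := by positivity
    nlinarith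
  have hsum : ∀ k, ∑ j ∈ Finset.range k, ρ (T * M ^ (j + 1)) ≤ 1 / 16 := by
    intro k
    refine (Finset.sum_le_sum fun j _ => hgeo j).trans ?_
    rw [← Finset.mul_sum]
    have a1 := (summable_geometric_of_lt_one κ0.le κ1).sum_le_tsum (Finset.range k)
      fun j _ => by positivity
    rw [tsum_geometric_of_lt_one κ0.le κ1] at a1
    refine (mul_le_mul_of_nonneg_left a1 c0.le).trans (le_of_eq ?_)
    rw [hc]
    have : 1 - κ ≠ 0 := by linarith
    field_simp
  have hρ1 : 0 < ρ (T * M) := ρ_pos _ (by positivity)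
  refine ⟨⟨ρ, T, M, min (1 / (64 * d) * ρ (T * M) / 160) (1 / (32 * (T * M ^ 2)) / 6),
    ⟨0, by omega⟩, ⟨1, by omega⟩, by simp, ρ_pos, ρ_vol, hM, by omega, h1, by linarith, hsum,
    lt_min (by positivity) (by positivity), min_le_left _ _, ?_⟩, rfl⟩
  have := min_le_right (1 / (64 * d) * ρ (T * M) / 160) (1 / (32 * ((T : ℝ) * M ^ 2)) / 6)
  linarith

lemma integrable_count (n : ℕ) :
    Integrable (fun x : ℕ → Torus d => (uncoveredCount n x : ℝ)) (PP d) := by
  refine Integrable.of_bound (C := n) ?_ (Filter.Eventually.of_forall fun x => ?_)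
  · exact ((measurable_from_top (f := fun k : ℕ => (k : ℝ))).comp
      (measurable_uncoveredCount n)).aestronglyMeasurable
  · rw [Real.norm_natCast]
    exact_mod_cast uncoveredCount_le n x

lemma le_integral_of_le_lintegral {n : ℕ} {a : ℝ}
    (h : ENNReal.ofReal a ≤ ∫⁻ x, (uncoveredCount n x : ENNReal) ∂(PP d)) :
    a ≤ ∫ x, (uncoveredCount n x : ℝ) ∂(PP d) := by
  have h1 := ofReal_integral_eq_lintegral_ofReal (integrable_count (d := d) n)
    (Filter.Eventually.of_forall fun x => Nat.cast_nonneg _)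
  simp only [ENNReal.ofReal_natCast] at h1
  rw [← h1] at h
  exact (ENNReal.ofReal_le_ofReal_iff (integral_nonneg fun x => Nat.cast_nonneg _)).1 h

theorem poly_lower_bound : ∃ d₀ : ℕ, ∀ d ≥ d₀, ∃ c α : ℝ, 0 < c ∧ 0 < α ∧ ∀ n : ℕ, 1 ≤ n →
    c * (n : ℝ) ^ α ≤ ∫ x, (uncoveredCount n x : ℝ) ∂(PP d) := by
  obtain ⟨L, hL⟩ : ∃ L : ℕ, 512 ≤ L := ⟨512, le_rfl⟩
  have hM2 : 2 ≤ 2 ^ (L + 1) := Nat.le_self_pow (by omega) _
  obtain ⟨d₀, hd₀⟩ := exists_par hM2
  refine ⟨d₀, fun d hd => ?_⟩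
  obtain ⟨P, hM⟩ := hd₀ d hd
  obtain ⟨β, hβ0, hβ⟩ := P.base_pos
  set α : ℝ := (((L + 1 : ℕ) : ℝ))⁻¹ with hα
  have hα0 : 0 < α := by positivity
  have hA : (0 : ℝ) < ((P.T * P.M ^ 3 : ℕ) : ℝ) := by exact_mod_cast P.TM_pos 3
  set A : ℝ := ((P.T * P.M ^ 3 : ℕ) : ℝ) with hAdef
  have hAα : 0 < A ^ α := Real.rpow_pos_of_pos hA _
  refine ⟨min 1 (β / 2) / A ^ α, α, by positivity, hα0, fun n hn => ?_⟩
  rw [div_mul_eq_mul_div, div_le_iff₀ hAα]
  have hone : (1 : ℝ) ≤ ∫ x, (uncoveredCount n x : ℝ) ∂(PP d) := by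
    apply le_integral_of_le_lintegral
    rw [ENNReal.ofReal_one]
    refine le_trans ?_ (lintegral_mono (f := fun _ => 1) fun x =>
      Nat.one_le_cast.2 (one_le_uncoveredCount hn x))
    simp
  by_cases hsmall : n < P.T * P.M ^ 2
  · have a1 : (n : ℝ) ≤ A := by
      rw [hAdef]
      have : P.T * P.M ^ 2 ≤ P.T * P.M ^ 3 :=
        Nat.mul_le_mul_left _ (Nat.pow_le_pow_right (by have := P.hM; omega) (by omega))
      exact_mod_cast (by omega : n ≤ P.T * P.M ^ 3)
    have a2 : (n : ℝ) ^ α ≤ A ^ α := Real.rpow_le_rpow (by positivity) a1 hα0.le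
    exact mul_le_mul ((min_le_left _ _).trans hone) a2 (by positivity) (by linarith)
  · have hex : ∃ m, n < P.T * P.M ^ (m + 3) := by
      refine ⟨n, ?_⟩
      have b1 : n < P.M ^ n := Nat.lt_pow_self (by have := P.hM; omega)
      have b2 : P.M ^ n ≤ P.M ^ (n + 3) := Nat.pow_le_pow_right (by have := P.hM; omega) (by omega)
      have b3 : P.M ^ (n + 3) ≤ P.T * P.M ^ (n + 3) :=
        Nat.le_mul_of_pos_left _ (by have := P.hT; omega)
      omega
    have hm1 := Nat.find_spec hex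
    set m := Nat.find hex with hm
    have hm2 : P.T * P.M ^ (m + 2) ≤ n := by
      rcases Nat.eq_zero_or_pos m with h0 | h0
      · rw [h0, zero_add]
        omega
      · have := Nat.find_min hex (m := m - 1) (by omega)
        rw [show m - 1 + 3 = m + 2 by omega] at this
        omega
    have a0 := le_integral_of_le_lintegral (lintegral_count_ge P hM hL hβ0 hβ m n hm2)
    have a1 : (n : ℝ) ≤ A * (2 ^ m) ^ (L + 1) := by
      have : P.T * P.M ^ (m + 3) = P.T * P.M ^ 3 * (2 ^ m) ^ (L + 1) := by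
        rw [← pow_mul, mul_comm m, pow_mul, ← hM]
        ring
      rw [hAdef]
      exact_mod_cast (by omega : n ≤ P.T * P.M ^ 3 * (2 ^ m) ^ (L + 1))
    have a2 : (n : ℝ) ^ α ≤ A ^ α * 2 ^ m := by
      refine (Real.rpow_le_rpow (by positivity) a1 hα0.le).trans (le_of_eq ?_)
      rw [Real.mul_rpow hA.le (by positivity), hα,
        Real.pow_rpow_inv_natCast (by positivity) (by omega)]
    calc min 1 (β / 2) * (n : ℝ) ^ α ≤ β / 2 * (A ^ α * 2 ^ m) :=
          mul_le_mul (min_le_right _ _) a2 (by positivity) (by positivity)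
      _ = β / 2 * 2 ^ m * A ^ α := by ring
      _ ≤ _ := mul_le_mul_of_nonneg_right a0 hAα.le

theorem prob_bound : ∃ d₀ : ℕ, ∀ d ≥ d₀, ∀ C k : ℝ, ∃ N : ℕ, ∀ n : ℕ, N ≤ n →
    (PP d {x | (uncoveredCount n x : ℝ) ≤ C * Real.log n ^ k}).toReal < 1 - 1 / (n : ℝ) := by
  obtain ⟨d₀, hd₀⟩ := poly_lower_bound
  refine ⟨d₀, fun d hd C k => ?_⟩
  obtain ⟨c, α, hc, hα, hE⟩ := hd₀ d hd
  have t1 := ((isLittleO_log_rpow_rpow_atTop k hα).const_mul_left C).bound (half_pos hc)
  have t2 := (tendsto_rpow_atTop hα).eventually (Filter.eventually_gt_atTop (2 / c))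
  have t3 := tendsto_natCast_atTop_atTop (R := ℝ) |>.eventually (t1.and t2)
  obtain ⟨N, hN⟩ := Filter.eventually_atTop.1 (t3.and (Filter.eventually_ge_atTop 1))
  refine ⟨N, fun n hn => ?_⟩
  obtain ⟨⟨h1, h2⟩, h3⟩ := hN n hn
  have hn0 : (0 : ℝ) < n := by exact_mod_cast h3
  set B : ℝ := C * Real.log n ^ k
  set S : Set (ℕ → Torus d) := {x | (uncoveredCount n x : ℝ) ≤ B} with hS
  have hSm : MeasurableSet S := measurableSet_le
    ((measurable_from_top (f := fun k : ℕ => (k : ℝ))).comp (measurable_uncoveredCount n))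
    measurable_const
  have hpt : ∀ x, (uncoveredCount n x : ℝ) ≤ |B| + Sᶜ.indicator (fun _ => (n : ℝ)) x := by
    intro x
    by_cases hx : x ∈ S
    · rw [indicator_of_notMem (by simpa using hx), add_zero]
      exact le_trans hx (le_abs_self B)
    · rw [indicator_of_mem hx]
      have : (uncoveredCount n x : ℝ) ≤ n := by exact_mod_cast uncoveredCount_le n x
      linarith [abs_nonneg B]
  have hi : Integrable (Sᶜ.indicator fun _ : ℕ → Torus d => (n : ℝ)) (PP d) :=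
    (integrable_const _).indicator hSm.compl
  have h4 := (hE n h3).trans (integral_mono (integrable_count n) ((integrable_const _).add hi) hpt)
  rw [integral_add' (integrable_const _) hi, integral_indicator_const _ hSm.compl,
    probReal_compl_eq_one_sub hSm] at h4
  simp only [integral_const, probReal_univ, smul_eq_mul, one_mul] at h4
  rw [Real.norm_eq_abs, Real.norm_eq_abs, abs_of_pos (Real.rpow_pos_of_pos hn0 α)] at h1
  rw [div_lt_iff₀ hc] at h2
  have h5 : 1 < (1 - (PP d).real S) * n := by linarith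
  have h6 : 1 / (n : ℝ) < 1 - (PP d).real S := by rwa [div_lt_iff₀ hn0]
  have h7 : (PP d S).toReal = (PP d).real S := rfl
  linarith

end Pool.Agent.MP_959362_pr.H69
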