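import Mathlib

namespace Pool.Agent.MP_959362_pr.H69

/-- The torus `ℝ^d / ℤ^d`, as a product of `d` circles `ℝ / ℤ`. -/
abbrev Torus (d : ℕ) : Type := Fin d → UnitAddCircle

/-- The flat (Euclidean quotient) metric of the torus. -/
noncomputable def tdist {d : ℕ} (y z : Torus d) : ℝ :=
  Real.sqrt (∑ i, dist (y i) (z i) ^ 2)

/-- Vertices are `0, 1, 2, ...` (vertex `0` is the root) and vertex `i` sits at `x i`.
The parent of `i ≥ 1` is the (least) `j < i` minimising the distance to `x i`.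
For the root the set is empty and the value is `0`. -/
noncomputable def parent {d : ℕ} (x : ℕ → Torus d) (i : ℕ) : ℕ :=
  sInf {j | j < i ∧ ∀ s < i, tdist (x i) (x j) ≤ tdist (x i) (x s)}

/-- `{a, b}` is an edge of the nearest neighbour tree on the vertices `0, ..., n - 1`. -/
def Adj {d : ℕ} (n : ℕ) (x : ℕ → Torus d) (a b : ℕ) : Prop :=
  a < n ∧ b < n ∧ ((0 < a ∧ parent x a = b) ∨ (0 < b ∧ parent x b = a))

/-- Vertex `v` is covered by the edge `{p, q}`. -/
def CoveredBy {d : ℕ} (n : ℕ) (x : ℕ → Torus d) (v p q : ℕ) : Prop :=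
  Adj n x p q ∧ Adj n x v p ∧ v ≠ q ∧
    tdist (x v) (x p) < tdist (x p) (x q) ∧ tdist (x v) (x q) < tdist (x p) (x q)

/-- Vertex `v` is, or descends from, a vertex covered by some edge. -/
def Covered {d : ℕ} (n : ℕ) (x : ℕ → Torus d) (v : ℕ) : Prop :=
  ∃ m p q : ℕ, CoveredBy n x ((parent x)^[m] v) p q

/-- The number of uncovered vertices of the tree on `n` vertices. -/
noncomputable def uncoveredCount {d : ℕ} (n : ℕ) (x : ℕ → Torus d) : ℕ :=
  Set.ncard {v | v < n ∧ ¬ Covered n x v}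

end Pool.Agent.MP_959362_pr.H69
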