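import Pool.Agent.MP_959362_pr.H69.Defs

namespace Pool.Agent.MP_959362_pr.H69

open MeasureTheory

variable {d : ℕ}

lemma tdist_comm (y z : Torus d) : tdist y z = tdist z y := by
  unfold tdist
  congr 1
  exact Finset.sum_congr rfl fun i _ => by rw [dist_comm]

lemma tdist_nonneg (y z : Torus d) : 0 ≤ tdist y z := Real.sqrt_nonneg _

lemma continuous_tdist : Continuous fun p : Torus d × Torus d => tdist p.1 p.2 := by
  unfold tdist
  fun_prop

lemma measurable_tdist {α : Type*} [MeasurableSpace α] {f g : α → Torus d}
    (hf : Measurable f) (hg : Measurable g) : Measurable fun a => tdist (f a) (g a) := by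
  have h := (continuous_tdist (d := d)).measurable.comp (hf.prodMk hg)
  simpa only [Function.comp_def] using h

lemma parent_zero (x : ℕ → Torus d) : parent x 0 = 0 := by
  unfold parent
  simp

lemma parent_spec (x : ℕ → Torus d) {i : ℕ} (hi : 0 < i) :
    parent x i < i ∧ ∀ s < i, tdist (x i) (x (parent x i)) ≤ tdist (x i) (x s) := by
  have hne : {j | j < i ∧ ∀ s < i, tdist (x i) (x j) ≤ tdist (x i) (x s)}.Nonempty := by
    obtain ⟨j, hj, hmin⟩ := Finset.exists_min_image (Finset.range i)
      (fun s => tdist (x i) (x s)) ⟨0, Finset.mem_range.2 hi⟩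
    exact ⟨j, Finset.mem_range.1 hj, fun s hs => hmin s (Finset.mem_range.2 hs)⟩
  exact Nat.sInf_mem hne

lemma parent_eq_of (x : ℕ → Torus d) {i j : ℕ} (hj : j < i)
    (h : ∀ s < i, s ≠ j → tdist (x i) (x j) < tdist (x i) (x s)) : parent x i = j := by
  have hi : 0 < i := by omega
  obtain ⟨h1, h2⟩ := parent_spec x hi
  by_contra hne
  exact absurd (h2 j hj) (not_le.2 (h _ h1 hne))

/-- The deterministic sufficient condition for the path `τ 0, ..., τ k` to be an uncovered
ancestral line. -/
def Good (τ : ℕ → ℕ) (k : ℕ) (x : ℕ → Torus d) : Prop :=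
  (∀ j < k, parent x (τ (j + 1)) = τ j) ∧
  (∀ j, j + 2 ≤ k →
    tdist (x (τ (j + 1))) (x (τ j)) ≤ tdist (x (τ (j + 2))) (x (τ j))) ∧
  (∀ j < k, ∀ t, τ j < t → t < τ (j + 1) → parent x t = τ j →
    tdist (x (τ j)) (x t) ≤ tdist (x (τ (j + 1))) (x (τ j)) ∨
    tdist (x (τ j)) (x t) ≤ tdist (x (τ (j + 1))) (x t))

lemma iterate_parent {τ : ℕ → ℕ} {k : ℕ} {x : ℕ → Torus d} (h0 : τ 0 = 0)
    (h : ∀ j < k, parent x (τ (j + 1)) = τ j) (m : ℕ) :
    (parent x)^[m] (τ k) = τ (k - m) := by
  induction m with
  | zero => simp
  | succ m ih =>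
    rw [Function.iterate_succ_apply', ih]
    by_cases hm : m < k
    · have : k - m = (k - (m + 1)) + 1 := by omega
      rw [this, h _ (by omega)]
    · have e1 : k - m = 0 := by omega
      have e2 : k - (m + 1) = 0 := by omega
      rw [e1, e2, h0, parent_zero]

lemma not_coveredBy_root (n : ℕ) (x : ℕ → Torus d) (p q : ℕ) : ¬ CoveredBy n x 0 p q := by
  rintro ⟨⟨-, -, hpq⟩, ⟨-, -, hvp⟩, hne, h1, h2⟩
  rcases hvp with ⟨h, -⟩ | ⟨hp, hpv⟩
  · exact absurd h (lt_irrefl 0)
  · rcases hpq with ⟨-, h⟩ | ⟨hq, hqp⟩
    · exact hne (hpv.symm.trans h)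
    · have := (parent_spec x hq).2 0 hq
      rw [hqp, tdist_comm (x q) (x p), tdist_comm (x q) (x 0)] at this
      linarith

lemma not_covered_root (n : ℕ) (x : ℕ → Torus d) : ¬ Covered n x 0 := by
  rintro ⟨m, p, q, h⟩
  rw [Function.iterate_fixed (parent_zero x)] at h
  exact not_coveredBy_root n x p q h

lemma not_covered_of_good {τ : ℕ → ℕ} {k : ℕ} {x : ℕ → Torus d} (h0 : τ 0 = 0)
    (hG : Good τ k x) (n : ℕ) : ¬ Covered n x (τ k) := by
  obtain ⟨ha, hb, hc⟩ := hG
  rintro ⟨m, p, q, h⟩
  rw [iterate_parent h0 ha] at h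
  generalize hj : k - m = j at h
  have hjk : j ≤ k := by omega
  rcases j with _ | j
  · rw [h0] at h
    exact not_coveredBy_root n x p q h
  obtain ⟨⟨-, -, hpq⟩, ⟨-, -, hvp⟩, hne, h1, h2⟩ := h
  rcases hvp with ⟨hv, hvp⟩ | ⟨hp, hpv⟩
  · rw [ha j (by omega)] at hvp
    subst hvp
    rcases hpq with ⟨hp, hq⟩ | ⟨hq, hqp⟩
    · rcases j with _ | j
      · rw [h0] at hp
        exact absurd hp (lt_irrefl 0)
      · rw [ha j (by omega)] at hq
        subst hq
        have := hb j (by omega)
        linarith
    · have hlt := (parent_spec x hq).1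
      rw [hqp] at hlt
      rcases lt_or_gt_of_ne hne with hvq | hvq
      · have := (parent_spec x hq).2 _ hvq
        rw [hqp, tdist_comm (x q), tdist_comm (x q)] at this
        linarith
      · rcases hc j (by omega) q hlt hvq hqp with h | h <;> linarith
  · rcases hpq with ⟨-, h⟩ | ⟨hq, hqp⟩
    · exact hne (hpv.symm.trans h)
    · have e1 := (parent_spec x hq).1
      have e2 := (parent_spec x hp).1
      rw [hqp] at e1
      rw [hpv] at e2
      have := (parent_spec x hq).2 (τ (j + 1)) (by omega)
      rw [hqp, tdist_comm (x q), tdist_comm (x q)] at this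
      linarith

/-! Measurability -/

lemma measurable_le_tdist (a b c e : ℕ) :
    Measurable fun x : ℕ → Torus d => tdist (x a) (x b) ≤ tdist (x c) (x e) := by
  rw [← measurableSet_setOfPred]
  exact measurableSet_le (measurable_tdist (measurable_pi_apply a) (measurable_pi_apply b))
    (measurable_tdist (measurable_pi_apply c) (measurable_pi_apply e))

lemma measurable_lt_tdist (a b c e : ℕ) :
    Measurable fun x : ℕ → Torus d => tdist (x a) (x b) < tdist (x c) (x e) := by
  rw [← measurableSet_setOfPred]
  exact measurableSet_lt (measurable_tdist (measurable_pi_apply a) (measurable_pi_apply b))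
    (measurable_tdist (measurable_pi_apply c) (measurable_pi_apply e))

lemma sInf_eq_iff (S : Set ℕ) (j : ℕ) :
    sInf S = j ↔ (j ∈ S ∧ ∀ l < j, l ∉ S) ∨ (j = 0 ∧ ∀ l, l ∉ S) := by
  constructor
  · rintro rfl
    rcases S.eq_empty_or_nonempty with h | h
    · right
      subst h
      simp
    · left
      exact ⟨Nat.sInf_mem h, fun l hl => Nat.notMem_of_lt_sInf hl⟩
  · rintro (⟨h1, h2⟩ | ⟨h1, h2⟩)
    · apply le_antisymm (Nat.sInf_le h1)
      by_contra hlt
      exact h2 _ (not_le.1 hlt) (Nat.sInf_mem ⟨j, h1⟩)
    · have : S = ∅ := Set.eq_empty_of_forall_notMem h2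
      subst this
      simp [h1]

lemma measurable_parent_eq (i j : ℕ) : Measurable fun x : ℕ → Torus d => parent x i = j := by
  have hm : ∀ l : ℕ, Measurable fun x : ℕ → Torus d =>
      (l < i ∧ ∀ s < i, tdist (x i) (x l) ≤ tdist (x i) (x s)) := fun l =>
    measurable_const.and (Measurable.forall fun s =>
      measurable_const.imp (measurable_le_tdist _ _ _ _))
  simp only [parent, sInf_eq_iff, Set.mem_ofPred_eq]
  exact ((hm j).and (Measurable.forall fun l => measurable_const.imp (hm l).not)).or
    (measurable_const.and (Measurable.forall fun l => (hm l).not))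

lemma measurable_iterate_eq (m v w : ℕ) :
    Measurable fun x : ℕ → Torus d => (parent x)^[m] v = w := by
  induction m generalizing w with
  | zero => simp
  | succ m ih =>
    have : (fun x : ℕ → Torus d => (parent x)^[m + 1] v = w) =
        fun x => ∃ u, (parent x)^[m] v = u ∧ parent x u = w := by
      funext x
      rw [Function.iterate_succ_apply']
      simp
    rw [this]
    exact Measurable.exists fun u => (ih u).and (measurable_parent_eq u w)

lemma measurable_adj (n a b : ℕ) : Measurable fun x : ℕ → Torus d => Adj n x a b := by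
  unfold Adj
  exact measurable_const.and (measurable_const.and
    ((measurable_const.and (measurable_parent_eq _ _)).or
      (measurable_const.and (measurable_parent_eq _ _))))

lemma measurable_coveredBy (n v p q : ℕ) :
    Measurable fun x : ℕ → Torus d => CoveredBy n x v p q := by
  unfold CoveredBy
  exact (measurable_adj _ _ _).and ((measurable_adj _ _ _).and (measurable_const.and
    ((measurable_lt_tdist _ _ _ _).and (measurable_lt_tdist _ _ _ _))))

lemma measurable_covered (n v : ℕ) : Measurable fun x : ℕ → Torus d => Covered n x v := by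
  have : (fun x : ℕ → Torus d => Covered n x v) =
      fun x => ∃ m p q w, (parent x)^[m] v = w ∧ CoveredBy n x w p q := by
    funext x
    unfold Covered
    simp
  rw [this]
  exact Measurable.exists fun m => Measurable.exists fun p => Measurable.exists fun q =>
    Measurable.exists fun w => (measurable_iterate_eq m v w).and (measurable_coveredBy n w p q)

lemma measurable_good (τ : ℕ → ℕ) (k : ℕ) : Measurable fun x : ℕ → Torus d => Good τ k x := by
  unfold Good
  refine (Measurable.forall fun j => measurable_const.imp (measurable_parent_eq _ _)).and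
    ((Measurable.forall fun j => measurable_const.imp (measurable_le_tdist _ _ _ _)).and
      (Measurable.forall fun j => measurable_const.imp (Measurable.forall fun t =>
        measurable_const.imp (measurable_const.imp ((measurable_parent_eq _ _).imp
          ((measurable_le_tdist _ _ _ _).or (measurable_le_tdist _ _ _ _)))))))

open Classical in
lemma uncoveredCount_eq (n : ℕ) (x : ℕ → Torus d) :
    uncoveredCount n x = ((Finset.range n).filter fun v => ¬ Covered n x v).card := by
  unfold uncoveredCount
  rw [← Set.ncard_coe_finset]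
  congr 1
  ext v
  simp

lemma uncoveredCount_le (n : ℕ) (x : ℕ → Torus d) : uncoveredCount n x ≤ n := by
  classical
  rw [uncoveredCount_eq]
  exact (Finset.card_filter_le _ _).trans (by simp)

lemma one_le_uncoveredCount {n : ℕ} (hn : 1 ≤ n) (x : ℕ → Torus d) : 1 ≤ uncoveredCount n x := by
  classical
  rw [uncoveredCount_eq]
  exact Finset.card_pos.2 ⟨0, by simp [not_covered_root]; omega⟩

lemma measurable_uncoveredCount (n : ℕ) :
    Measurable fun x : ℕ → Torus d => uncoveredCount n x := by
  classical
  have : (fun x : ℕ → Torus d => uncoveredCount n x) =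
      fun x => ∑ v ∈ Finset.range n, if ¬ Covered n x v then 1 else 0 := by
    funext x
    rw [uncoveredCount_eq, Finset.card_filter]
  rw [this]
  refine Finset.measurable_sum _ fun v _ => Measurable.ite ?_ measurable_const measurable_const
  exact measurableSet_setOfPred.2 (measurable_covered n v).not

end Pool.Agent.MP_959362_pr.H69
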