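import Pool.Agent.MP_959362_pr.H69.Det

namespace Pool.Agent.MP_959362_pr.H69

open MeasureTheory Metric Set

variable {d : ℕ}

abbrev E (d : ℕ) : Type := EuclideanSpace ℝ (Fin d)

noncomputable def lift (y : Torus d) : E d :=
  WithLp.toLp 2 fun i => (AddCircle.equivIoc 1 (-1 / 2) (y i)).1

noncomputable def proj (s : E d) : Torus d := fun i => ((s i : ℝ) : UnitAddCircle)

noncomputable def rel (b y : Torus d) : E d := lift (y - b)

def box (d : ℕ) : Set (E d) := {s | ∀ i, s i ∈ Ioc (-1 / 2 : ℝ) (-1 / 2 + 1)}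

lemma proj_lift (y : Torus d) : proj (lift y) = y := by
  funext i
  exact AddCircle.coe_equivIoc

lemma lift_mem_box (y : Torus d) : lift y ∈ box d := fun i =>
  (AddCircle.equivIoc 1 (-1 / 2) (y i)).2

lemma abs_lift_le (y : Torus d) (i : Fin d) : |lift y i| ≤ 1 / 2 := by
  have := lift_mem_box y i
  rw [abs_le]
  constructor <;> linarith [this.1, this.2]

lemma lift_proj {s : E d} (h : s ∈ box d) : lift (proj s) = s := by
  ext i
  exact AddCircle.equivIoc_coe_of_mem (h i)

lemma proj_sub (s t : E d) : proj (s - t) = proj s - proj t := by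
  funext i
  simp [proj]

lemma tdist_proj_le (s t : E d) : tdist (proj s) (proj t) ≤ ‖s - t‖ := by
  rw [EuclideanSpace.norm_eq, tdist]
  apply Real.sqrt_le_sqrt
  refine Finset.sum_le_sum fun i _ => ?_
  apply pow_le_pow_left₀ dist_nonneg
  rw [dist_eq_norm, proj, proj, ← AddCircle.coe_sub, PiLp.sub_apply]
  exact QuotientAddGroup.norm_mk_le_norm

lemma tdist_proj_eq {s t : E d} (h : ∀ i, |(s - t) i| ≤ 1 / 2) :
    tdist (proj s) (proj t) = ‖s - t‖ := by
  rw [EuclideanSpace.norm_eq, tdist]
  congr 1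
  refine Finset.sum_congr rfl fun i _ => ?_
  congr 1
  rw [dist_eq_norm, proj, proj, ← AddCircle.coe_sub, ← PiLp.sub_apply, Real.norm_eq_abs]
  exact (AddCircle.norm_coe_eq_abs_iff 1 one_ne_zero).2 (by simpa using h i)

lemma tdist_sub (y z b : Torus d) : tdist (y - b) (z - b) = tdist y z := by
  unfold tdist
  congr 1
  exact Finset.sum_congr rfl fun i _ => by simp

lemma abs_apply_le_norm (s : E d) (i : Fin d) : |s i| ≤ ‖s‖ := by
  simpa using PiLp.norm_apply_le s i

lemma tdist_le_rel (b y z : Torus d) : tdist y z ≤ ‖rel b y - rel b z‖ := by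
  rw [← tdist_sub y z b, ← proj_lift (y - b), ← proj_lift (z - b)]
  exact tdist_proj_le _ _

lemma tdist_eq_rel {b y z : Torus d} (h : ‖rel b y - rel b z‖ ≤ 1 / 2) :
    tdist y z = ‖rel b y - rel b z‖ := by
  rw [← tdist_sub y z b, ← proj_lift (y - b), ← proj_lift (z - b)]
  exact tdist_proj_eq fun i => (abs_apply_le_norm _ i).trans h

lemma rel_self (b : Torus d) : rel b b = 0 := by
  have h0 : (0 : E d) ∈ box d := fun i => by
    constructor <;> norm_num
  have : proj (0 : E d) = 0 := by
    funext i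
    simp [proj]
  rw [rel, sub_self, ← this, lift_proj h0]

lemma tdist_eq_norm_rel (b y : Torus d) : tdist y b = ‖rel b y‖ := by
  rw [← tdist_sub y b b, ← proj_lift (y - b), ← proj_lift (b - b)]
  have := rel_self b
  rw [rel] at this
  rw [this, tdist_proj_eq (fun i => by simpa using abs_lift_le _ i), sub_zero, rel]

lemma measurable_lift : Measurable (lift : Torus d → E d) := by
  unfold lift
  refine (PiLp.continuous_toLp 2 _).measurable.comp (measurable_pi_lambda _ fun i => ?_)
  exact measurable_subtype_coe.comp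
    ((AddCircle.measurableEquivIoc 1 (-1 / 2)).measurable.comp (measurable_pi_apply i))

lemma measurable_rel (b : Torus d) : Measurable (rel b) :=
  measurable_lift.comp (measurable_sub_const b)

lemma measurableSet_box : MeasurableSet (box d) := by
  unfold box
  rw [measurableSet_setOfPred]
  refine Measurable.forall fun i => ?_
  rw [← measurableSet_setOfPred]
  have : Measurable fun s : E d => s i := by fun_prop
  exact this measurableSet_Ioc

lemma volume_eq_proj {B : Set (Torus d)} (hB : MeasurableSet B) :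
    volume B = volume (proj ⁻¹' B ∩ box d) := by
  have h1 := measurePreserving_pi _ _ (fun i : Fin d => AddCircle.measurePreserving_mk 1 (-1 / 2))
  have h2 := h1.measure_preimage hB.nullMeasurableSet
  rw [← Measure.restrict_pi_pi, Measure.restrict_apply (h1.measurable hB)] at h2
  have h3 := (PiLp.volume_preserving_ofLp (Fin d)).measure_preimage
    (s := (fun (a : Fin d → ℝ) i => ((a i : ℝ) : UnitAddCircle)) ⁻¹' B ∩
      univ.pi fun _ => Ioc (-1 / 2 : ℝ) (-1 / 2 + 1))
    ((h1.measurable hB).inter (MeasurableSet.univ_pi fun _ => measurableSet_Ioc)).nullMeasurableSet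
  rw [volume_pi, ← h2, ← volume_pi, ← h3]
  congr 1
  ext s
  simp only [box, mem_inter_iff, mem_preimage, mem_ofPred_eq, mem_pi, mem_univ, true_imp_iff]
  rfl

lemma volume_lift {A : Set (E d)} (hA : MeasurableSet A) :
    volume (lift ⁻¹' A : Set (Torus d)) = volume (A ∩ box d) := by
  rw [volume_eq_proj (measurable_lift hA)]
  congr 1
  ext s
  simp only [mem_inter_iff, mem_preimage, and_congr_left_iff]
  intro hs
  rw [lift_proj hs]

lemma volume_rel (b : Torus d) {A : Set (E d)} (hA : MeasurableSet A) :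
    volume {y : Torus d | rel b y ∈ A} = volume (A ∩ box d) := by
  rw [← volume_lift hA]
  exact (measurePreserving_sub_right volume b).measure_preimage
    (measurable_lift hA).nullMeasurableSet

lemma volume_rel_le (b : Torus d) {A : Set (E d)} (hA : MeasurableSet A) :
    volume {y : Torus d | rel b y ∈ A} ≤ volume A := by
  rw [volume_rel b hA]
  exact measure_mono inter_subset_left

lemma volume_rel_eq (b : Torus d) {A : Set (E d)} (hA : MeasurableSet A)
    (h : A ⊆ ball 0 (1 / 2)) : volume {y : Torus d | rel b y ∈ A} = volume A := by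
  rw [volume_rel b hA, inter_eq_left.2]
  intro s hs i
  have h1 := h hs
  rw [mem_ball_zero_iff] at h1
  have h2 := abs_lt.1 ((abs_apply_le_norm s i).trans_lt h1)
  constructor <;> linarith [h2.1, h2.2]

instance isProbCircle : IsProbabilityMeasure (volume : Measure UnitAddCircle) :=
  ⟨UnitAddCircle.measure_univ⟩

instance isProbTorus : IsProbabilityMeasure (volume : Measure (Torus d)) := by
  rw [volume_pi]
  infer_instance

/-- volume of the Euclidean unit ball -/
noncomputable def om (d : ℕ) : ℝ := (volume (ball (0 : E d) 1)).toReal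

lemma om_pos : 0 < om d :=
  ENNReal.toReal_pos (measure_ball_pos _ _ one_pos).ne' measure_ball_lt_top.ne

lemma volume_closedBall_eq (c : E d) {r : ℝ} (hr : 0 ≤ r) :
    volume (closedBall c r) = ENNReal.ofReal (om d * r ^ d) := by
  rw [Measure.addHaar_closedBall _ _ hr, mul_comm (om d), ENNReal.ofReal_mul (by positivity), om,
    ENNReal.ofReal_toReal measure_ball_lt_top.ne]
  simp

lemma volume_ball_eq (c : E d) {r : ℝ} (hr : 0 < r) :
    volume (ball c r) = ENNReal.ofReal (om d * r ^ d) := by
  rw [Measure.addHaar_ball_of_pos _ _ hr, mul_comm (om d), ENNReal.ofReal_mul (by positivity), om,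
    ENNReal.ofReal_toReal measure_ball_lt_top.ne]
  simp

lemma volume_tball_le (p : Torus d) {r : ℝ} (hr : 0 ≤ r) :
    volume {w : Torus d | tdist w p ≤ r} ≤ ENNReal.ofReal (om d * r ^ d) := by
  rw [← volume_closedBall_eq 0 hr]
  refine le_trans (le_of_eq ?_) (volume_rel_le p measurableSet_closedBall)
  congr 1
  ext w
  simp [tdist_eq_norm_rel]

/-- The parallelogram bound: a lens lies in a ball around the midpoint. -/
lemma lens_bound (x p q : E d) :
    ‖x - (1 / 2 : ℝ) • (p + q)‖ ^ 2 = (‖x - p‖ ^ 2 + ‖x - q‖ ^ 2) / 2 - ‖p - q‖ ^ 2 / 4 := by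
  simp only [EuclideanSpace.real_norm_sq_eq, PiLp.sub_apply, PiLp.smul_apply, PiLp.add_apply,
    smul_eq_mul]
  rw [← Finset.sum_add_distrib, Finset.sum_div, Finset.sum_div, ← Finset.sum_sub_distrib]
  exact Finset.sum_congr rfl fun i _ => by ring

lemma volume_tlens_le (p q : Torus d) {R r : ℝ} (hR : R ≤ 1 / 4) (hpq : tdist q p ≤ 1 / 4)
    (hr : 0 ≤ r) (h : R ^ 2 - tdist q p ^ 2 / 4 ≤ r ^ 2) :
    volume {w : Torus d | tdist w p ≤ R ∧ tdist w q ≤ R} ≤ ENNReal.ofReal (om d * r ^ d) := by
  rw [← volume_closedBall_eq ((1 / 2 : ℝ) • (0 + rel p q)) hr]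
  refine le_trans (measure_mono ?_) (volume_rel_le p measurableSet_closedBall)
  rintro w ⟨h1, h2⟩
  have hR0 : 0 ≤ R := (tdist_nonneg _ _).trans h1
  rw [tdist_eq_norm_rel] at h1 hpq h
  have h3 : ‖rel p w - rel p q‖ ≤ 1 / 2 := (norm_sub_le _ _).trans (by linarith)
  rw [tdist_eq_rel h3] at h2
  simp only [mem_ofPred_eq, mem_closedBall, dist_eq_norm]
  apply le_of_sq_le_sq _ hr |>.trans le_rfl
  rw [lens_bound]
  simp only [sub_zero, zero_sub, norm_neg]
  have e1 := pow_le_pow_left₀ (norm_nonneg _) h1 2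
  have e2 := pow_le_pow_left₀ (norm_nonneg _) h2 2
  linarith

end Pool.Agent.MP_959362_pr.H69
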