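import Pool.Agent.MP_959362_pr.H69.Block

namespace Pool.Agent.MP_959362_pr.H69

open MeasureTheory Metric Set

variable {d : ℕ}

lemma Par.cage_ex (P : Par d) {τ : ℕ → ℕ} {x : ℕ → Torus d} (hB : P.Base x) {s : ℕ}
    (hs : s ∈ blk τ 0) : ∃ σ : ℝ, |σ| = P.ε ∧
      ‖rel (x 0) (x s) - σ • EuclideanSpace.single P.i1 (1 : ℝ)‖ < P.ε * (P.ε / 16) := by
  have h1 := mul_le_mul_of_nonneg_left P.δ_le P.hε0.le
  simp only [blk, Finset.mem_insert, Finset.mem_singleton] at hs
  rcases hs with rfl | rfl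
  · exact ⟨P.ε, abs_of_pos P.hε0, hB.1.trans_le h1⟩
  · exact ⟨-P.ε, by rw [abs_neg, abs_of_pos P.hε0], hB.2.1.trans_le h1⟩

lemma Par.cage_norm (P : Par d) {τ : ℕ → ℕ} {x : ℕ → Torus d} (hB : P.Base x) {s : ℕ}
    (hs : s ∈ blk τ 0) : ‖rel (x 0) (x s)‖ ≤ 2 * P.ε := by
  obtain ⟨σ, hσ, hZ⟩ := P.cage_ex hB hs
  have := norm_add_le (rel (x 0) (x s) - σ • EuclideanSpace.single P.i1 (1 : ℝ))
    (σ • EuclideanSpace.single P.i1 (1 : ℝ))
  rw [sub_add_cancel, norm_smul_single, hσ] at this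
  have h1 := P.ε_small
  have h2 := P.hε0
  nlinarith

namespace IsPath

variable {P : Par d} {k : ℕ} {τ : ℕ → ℕ} (h : IsPath P k τ)
include h

lemma cage_far {x : ℕ → Torus d} (hG : P.G τ k x) {s : ℕ} (hs : s ∈ blk τ 0) {j : ℕ}
    (hj : j + 1 ≤ k) : ‖Qv τ x (j + 1) - Qv τ x j‖ < ‖Qv τ x (j + 1) - rel (x 0) (x s)‖ := by
  have hε0 := P.hε0
  have hε := P.ε_small
  have hn := P.cage_norm hG.1 hs
  rcases Nat.eq_zero_or_pos j with rfl | h0
  · obtain ⟨σ, hσ, hZ⟩ := P.cage_ex hG.1 hs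
    have hq := h.norm_Qv_le le_rfl hG (i := 0 + 1) hj
    have h3 := hG.1.2.2
    rw [← h.h1] at h3
    rw [h.Qv_zero, sub_zero]
    rw [zero_add] at hq ⊢
    change ‖Qv τ x 1 - _‖ < _ at h3
    set q := Qv τ x 1
    set Z := rel (x 0) (x s)
    set w := Z - σ • EuclideanSpace.single P.i1 (1 : ℝ) with hw
    have e1 := (abs_apply_le_norm _ P.i1).trans_lt h3
    have e2 : (q - (39 / 40 * P.ρ (τ 1)) • EuclideanSpace.single P.i0 (1 : ℝ) : E d) P.i1 =
        q P.i1 := by simp [P.hi.symm]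
    rw [e2] at e1
    have e3 : inner ℝ q Z = inner ℝ q w + σ * q P.i1 := by
      rw [hw, inner_sub_right, inner_smul_right, EuclideanSpace.inner_single_right]
      simp
    have e4 := (abs_le.1 (abs_real_inner_le_norm q w)).2
    have e5 : ‖q‖ * ‖w‖ ≤ 1 / 16 * (P.ε * (P.ε / 16)) :=
      mul_le_mul hq hZ.le (norm_nonneg _) (by norm_num)
    have e6 : σ * q P.i1 ≤ P.ε * (P.ε / 16) := by
      refine (le_abs_self _).trans ?_
      rw [abs_mul, hσ]
      exact mul_le_mul_of_nonneg_left e1.le hε0.le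
    have e7 : P.ε / 2 * 1 + P.ε / 4 ≤ ‖Z‖ := by
      have := norm_sub_le Z w
      rw [hw, sub_sub_cancel, norm_smul_single, hσ, ← hw] at this
      nlinarith
    have e8 := pow_le_pow_left₀ (by positivity) e7 2
    apply lt_of_pow_lt_pow_left₀ 2 (norm_nonneg _)
    rw [norm_sub_sq_real]
    nlinarith
  · have a1 := (hG.2 j (by omega)).2.1
    have a2 := (hG.2 j (by omega)).2.2.2 0 h0
    rw [h.Qv_zero, sub_zero] at a2
    have a3 := h.drift le_rfl hG 1 j (by omega)
    have a4 := (hG.2 0 (by omega)).2.2.1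
    rw [h.Qv_zero, sub_zero, zero_add, h.h1] at a4
    rw [PiLp.sub_apply, add_comm 1 j] at a3
    have a5 := h.ρ_pos (j := j + 1) (by omega) hj
    have hd := P.d_pos'
    have a6 : 0 ≤ (j : ℝ) * (1 / (64 * d) * P.ρ (τ (j + 1))) := by positivity
    have a7 := (le_abs_self _).trans (abs_apply_le_norm (Qv τ x (j + 1)) P.i0)
    have a8 := P.hε1
    have a9 := norm_sub_norm_le (Qv τ x (j + 1)) (rel (x 0) (x s))
    by_cases hc : 1 / (64 * d) * P.ρ (P.T * P.M) / 2 ≤ P.ρ (τ (j + 1))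
    · linarith
    · linarith

lemma good_of_Ev {x : ℕ → Torus d} (hE : P.Ev τ k k x) : Good τ k x := by
  obtain ⟨hG, hA, -⟩ := hE
  refine ⟨fun j hj => parent_eq_of x (h.lt_succ hj) fun s hs hne => ?_, fun j hj => ?_,
    fun j hj t ht1 ht2 hp => ?_⟩
  · rw [h.tdist_eq le_rfl hG (i := j + 1) (l := j) hj hj.le]
    have a1 := (hG.2 j hj).2.1
    have a5 := h.ρ_pos (j := j + 1) (by omega) hj
    rcases h.classify hj hs with ⟨l, hl, rfl⟩ | ⟨i, hi, hb⟩
    · have hl2 : l < j := lt_of_le_of_ne hl fun e => hne (by rw [e])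
      rw [h.tdist_eq le_rfl hG (i := j + 1) (l := l) hj (by omega)]
      have := (hG.2 j hj).2.2.2 l hl2
      linarith
    · rcases i with _ | i
      · have b1 := P.cage_norm hG.1 hb
        have b2 := h.norm_Qv_le le_rfl hG (i := j + 1) hj
        have b3 := P.ε_small
        rw [tdist_eq_rel (b := x 0) ((norm_sub_le _ _).trans (by unfold Qv at b2; linarith))]
        exact h.cage_far hG hb hj
      · have b1 := hA i (by omega) s hb
        rw [tdist_comm]
        by_contra hle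
        refine b1 (Or.inl (Or.inl (mem_biUnion (x := j + 1)
          (Finset.mem_coe.2 (Finset.mem_Icc.2 ⟨hi, hj⟩)) ?_)))
        simp only [mem_ofPred_eq]
        linarith
  · rw [h.tdist_eq le_rfl hG (i := j + 1) (l := j) (by omega) (by omega),
      h.tdist_eq le_rfl hG (i := j + 2) (l := j) hj (by omega)]
    have a1 := (hG.2 j (by omega)).2.1
    have a2 := (hG.2 (j + 1) (by omega)).2.2.2 j (by omega)
    have a3 := h.ρ_ratio hj
    exact a1.trans (a3.trans a2)
  · by_cases ht : t ≤ 2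
    · left
      obtain rfl : j = 0 := by
        by_contra hj0
        have := h.six_le (j := j) (by omega) hj.le
        omega
      have hb : t ∈ blk τ 0 := by
        rw [h.h0] at ht1
        simp only [blk, Finset.mem_insert, Finset.mem_singleton]
        omega
      have b1 := P.cage_norm hG.1 hb
      have b2 := (hG.2 0 hj).1
      rw [h.tdist_eq le_rfl hG (i := 0 + 1) (l := 0) hj hj.le, tdist_comm, h.h0, tdist_eq_norm_rel]
      rw [zero_add, h.h1] at b2
      rw [zero_add]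
      have b3 := P.ε_le
      have b4 := P.hε0
      linarith
    · right
      have hb : t ∈ blk τ (j + 1) := by
        simp only [blk, Finset.mem_Ioo, max_lt_iff]
        omega
      have b1 := hA j hj t hb
      have b2 : ¬ (tdist (x t) (x (τ j)) ≤ P.R j ∧ tdist (x t) (x (τ (j + 1))) ≤ P.R j) :=
        fun hc => b1 (Or.inl (Or.inr hc))
      have b3 : x t ∉ U (x (τ j)) (P.R j) (blk τ j) x := fun hc => b1 (Or.inr hc)
      rw [tdist_comm (x (τ j)), tdist_comm (x (τ (j + 1)))]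
      by_cases hR : P.R j < tdist (x t) (x (τ j))
      · refine absurd ⟨hR, fun s hs => ?_⟩ b3
        have := (parent_spec x (i := t) (by omega)).2 s (h.blk_lt (Nat.lt_succ_self j) hj hs hb)
        rwa [hp] at this
      · by_contra hc
        exact b2 ⟨by linarith, by linarith⟩

lemma prob_good {β : ℝ} (hβ : ENNReal.ofReal β ≤ PP d {x | P.Base x}) {m : ℕ} (hm : k = m + 1) :
    ENNReal.ofReal ((1 / 2) ^ k * (β * ∏ i ∈ Finset.range m, 1 / (64 * (τ (i + 2) : ℝ)))) ≤
      PP d {x | Good τ k x} := by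
  rw [ENNReal.ofReal_mul (by positivity)]
  have h1 := h.prob_G hβ (j := m) hm.ge
  rw [← hm] at h1
  exact (mul_le_mul_right h1 _).trans ((h.prob_Ev le_rfl).trans
    (measure_mono fun x hx => h.good_of_Ev hx))

end IsPath

end Pool.Agent.MP_959362_pr.H69
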