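import Pool.Agent.MP_959362_pr.H69.Region

namespace Pool.Agent.MP_959362_pr.H69

open MeasureTheory Metric Set

variable {d : ℕ}

noncomputable abbrev PP (d : ℕ) : Measure (ℕ → Torus d) :=
  Measure.infinitePi fun _ : ℕ => (volume : Measure (Torus d))

lemma measurable_piecewise (I : Finset ℕ) :
    Measurable fun p : (ℕ → Torus d) × (ℕ → Torus d) => I.piecewise p.2 p.1 := by
  refine measurable_pi_lambda _ fun i => ?_
  by_cases hi : i ∈ I
  · simp only [Finset.piecewise_eq_of_mem _ _ _ hi]
    exact (measurable_pi_apply i).comp measurable_snd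
  · simp only [Finset.piecewise_eq_of_notMem _ _ _ hi]
    exact (measurable_pi_apply i).comp measurable_fst

lemma measurePreserving_piecewise (I : Finset ℕ) :
    MeasurePreserving (fun p : (ℕ → Torus d) × (ℕ → Torus d) => I.piecewise p.2 p.1)
      ((PP d).prod (PP d)) (PP d) := by
  refine ⟨measurable_piecewise I, Measure.eq_infinitePi _ fun s t ht => ?_⟩
  rw [Measure.map_apply (measurable_piecewise I)
    (MeasurableSet.pi s.countable_toSet fun i _ => ht i)]
  have : (fun p : (ℕ → Torus d) × (ℕ → Torus d) => I.piecewise p.2 p.1) ⁻¹' Set.pi s t =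
      (Set.pi ((s \ I : Finset ℕ) : Set ℕ) t) ×ˢ (Set.pi ((s ∩ I : Finset ℕ) : Set ℕ) t) := by
    ext p
    simp only [mem_preimage, mem_pi, Finset.mem_coe, mem_prod, Finset.mem_sdiff, Finset.mem_inter]
    constructor
    · intro h
      refine ⟨fun i hi => ?_, fun i hi => ?_⟩
      · have := h i hi.1
        rwa [Finset.piecewise_eq_of_notMem _ _ _ hi.2] at this
      · have := h i hi.1
        rwa [Finset.piecewise_eq_of_mem _ _ _ hi.2] at this
    · rintro ⟨h1, h2⟩ i hi
      by_cases hI : i ∈ I
      · rw [Finset.piecewise_eq_of_mem _ _ _ hI]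
        exact h2 i ⟨hi, hI⟩
      · rw [Finset.piecewise_eq_of_notMem _ _ _ hI]
        exact h1 i ⟨hi, hI⟩
  rw [this, Measure.prod_prod, Measure.infinitePi_pi _ (fun i _ => ht i),
    Measure.infinitePi_pi _ (fun i _ => ht i), mul_comm, Finset.prod_inter_mul_prod_sdiff]

/-- Conditional lower bounds multiply (for outer measures of arbitrary sets). -/
lemma resample_bound (I : Finset ℕ) (A B : Set (ℕ → Torus d)) (c : ENNReal)
    (h : ∀ x ∈ B, c ≤ PP d {y | I.piecewise y x ∈ A}) : c * PP d B ≤ PP d A := by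
  set A' := toMeasurable (PP d) A with hA'
  have hm : MeasurableSet A' := measurableSet_toMeasurable _ _
  have hpre := measurable_piecewise I hm
  have h1 := (measurePreserving_piecewise (d := d) I).measure_preimage hm.nullMeasurableSet
  rw [Measure.prod_apply hpre] at h1
  have h2 := mul_meas_ge_le_lintegral₀ (μ := PP d)
    (measurable_measure_prodMk_left (ν := PP d) hpre).aemeasurable c
  rw [← measure_toMeasurable A, ← hA', ← h1]
  refine le_trans (mul_le_mul_right (measure_mono fun x hx => ?_) c) h2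
  refine (h x hx).trans (measure_mono fun y hy => ?_)
  exact subset_toMeasurable _ _ hy

lemma PP_eval_le (t : ℕ) (B : Set (Torus d)) : PP d {y | y t ∈ B} ≤ volume B :=
  (measurePreserving_eval_infinitePi (fun _ : ℕ => (volume : Measure (Torus d))) t
    ).measure_preimage_le B

lemma PP_eval_eq (t : ℕ) {B : Set (Torus d)} (hB : MeasurableSet B) :
    PP d {y | y t ∈ B} = volume B :=
  (measurePreserving_eval_infinitePi (fun _ : ℕ => (volume : Measure (Torus d))) t
    ).measure_preimage hB.nullMeasurableSet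

/-- volume of a torus ball of radius `r` -/
noncomputable def V (d : ℕ) (r : ℝ) : ENNReal := volume (ball (0 : E d) r ∩ box d)

lemma V_mono : Monotone (V d) := fun _ _ h =>
  measure_mono (inter_subset_inter_left _ (ball_subset_ball h))

lemma volume_tball_open (w : Torus d) (r : ℝ) : volume {z : Torus d | tdist w z < r} = V d r := by
  rw [V, ← volume_rel w measurableSet_ball]
  congr 1
  ext z
  simp [tdist_comm w, tdist_eq_norm_rel]

lemma volume_tball_closed (hd : 0 < d) (w : Torus d) (r : ℝ) :
    volume {z : Torus d | tdist z w ≤ r} ≤ V d r := by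
  have : Nonempty (Fin d) := ⟨⟨0, hd⟩⟩
  have h1 : {z : Torus d | tdist z w ≤ r} = {z | rel w z ∈ closedBall (0 : E d) r} := by
    ext z
    simp [tdist_eq_norm_rel]
  rw [h1, volume_rel w measurableSet_closedBall, V]
  have h2 : closedBall (0 : E d) r ∩ box d ⊆ (ball (0 : E d) r ∩ box d) ∪ sphere 0 r := by
    rw [← ball_union_sphere]
    rintro s ⟨hs | hs, hb⟩
    · exact Or.inl ⟨hs, hb⟩
    · exact Or.inr hs
  refine (measure_mono h2).trans ((measure_union_le _ _).trans ?_)
  rw [Measure.addHaar_sphere, add_zero]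

lemma V_le_one (r : ℝ) : V d r ≤ 1 := by
  rw [← volume_tball_open 0 r]
  exact prob_le_one

lemma V_small {r : ℝ} (hr : 0 < r) (hr2 : r ≤ 1 / 2) : V d r = ENNReal.ofReal (om d * r ^ d) := by
  rw [V, ← volume_rel 0 measurableSet_ball, volume_rel_eq 0 measurableSet_ball
    (ball_subset_ball hr2), volume_ball_eq _ hr]

lemma measurable_V_tdist (p : Torus d) : Measurable fun w : Torus d => V d (tdist w p) :=
  V_mono.measurable.comp (measurable_tdist measurable_id measurable_const)

lemma volume_V_le (hd : 0 < d) (p : Torus d) (u : ENNReal) :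
    volume {w : Torus d | V d (tdist w p) ≤ u} ≤ u := by
  by_contra hlt
  have hm : MeasurableSet {w : Torus d | V d (tdist w p) ≤ u} :=
    measurableSet_le (measurable_V_tdist p) measurable_const
  obtain ⟨K, hK, hKc, hKu⟩ := hm.exists_lt_isCompact_of_ne_top (measure_ne_top _ _) (not_le.1 hlt)
  have hne : K.Nonempty := by
    rw [nonempty_iff_ne_empty]
    rintro rfl
    simp at hKu
  have hc : Continuous fun w : Torus d => tdist w p := by
    have := (continuous_tdist (d := d)).comp (Continuous.prodMk_left p)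
    simpa only [Function.comp_def] using this
  obtain ⟨w, hw, hmax⟩ := hKc.exists_isMaxOn hne hc.continuousOn
  have h1 : K ⊆ {z : Torus d | tdist z p ≤ tdist w p} := fun z hz => hmax hz
  exact absurd (((measure_mono h1).trans (volume_tball_closed hd p _)).trans (hK hw))
    (not_le.2 hKu)

lemma one_sub_pow_le {v : ℝ} (hv : 0 < v) (hv1 : v ≤ 1) {N : ℕ} (hN : 0 < N) :
    (1 - v) ^ N ≤ 2 / (N * v) ^ 2 := by
  have hN' : (0 : ℝ) < N := by exact_mod_cast hN
  have h1 : 1 - v ≤ Real.exp (-v) := by
    have := Real.add_one_le_exp (-v)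
    linarith
  have h2 := pow_le_pow_left₀ (by linarith) h1 N
  rw [← Real.exp_nat_mul] at h2
  refine h2.trans ?_
  have h3 := Real.quadratic_le_exp_of_nonneg (x := N * v) (by positivity)
  have h4 : 0 < (N : ℝ) * v := by positivity
  rw [mul_neg, Real.exp_neg, inv_eq_one_div, div_le_div_iff₀ (Real.exp_pos _) (by positivity)]
  nlinarith

/-- the far part of the Voronoi cell of `p` with respect to the points indexed by `I` -/
def U (p : Torus d) (R : ℝ) (I : Finset ℕ) (x : ℕ → Torus d) : Set (Torus d) :=
  {w | R < tdist w p ∧ ∀ s ∈ I, tdist w p ≤ tdist w (x s)}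

lemma measurableSet_U (p : Torus d) (R : ℝ) (I : Finset ℕ) :
    MeasurableSet {q : (ℕ → Torus d) × Torus d | q.2 ∈ U p R I q.1} := by
  unfold U
  simp only [mem_ofPred_eq]
  rw [measurableSet_setOfPred]
  refine Measurable.and ?_ (Measurable.forall fun s => measurable_const.imp ?_)
  · rw [← measurableSet_setOfPred]
    exact measurableSet_lt measurable_const (measurable_tdist measurable_snd measurable_const)
  · rw [← measurableSet_setOfPred]
    exact measurableSet_le (measurable_tdist measurable_snd measurable_const)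
      (measurable_tdist measurable_snd ((measurable_pi_apply s).comp measurable_fst))

lemma PP_mem_U_le (p : Torus d) (R : ℝ) (I : Finset ℕ) (hI : 0 < I.card) {u : ℝ} (hu : 0 < u)
    (hR : ENNReal.ofReal u ≤ V d R) (w : Torus d) :
    PP d {y | w ∈ U p R I y} ≤ ∑' k : ℕ, Set.indicator
      {w : Torus d | V d (tdist w p) ≤ ENNReal.ofReal (2 ^ (k + 1) * u)}
      (fun _ => ENNReal.ofReal (2 / (I.card * (2 ^ k * u)) ^ 2)) w := by
  by_cases hw : R < tdist w p
  · have h1 : {y : ℕ → Torus d | w ∈ U p R I y} =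
        Set.pi (I : Set ℕ) fun _ => {z : Torus d | tdist w z < tdist w p}ᶜ := by
      ext y
      simp [U, hw]
    have hm : MeasurableSet {z : Torus d | tdist w z < tdist w p} :=
      measurableSet_lt (measurable_tdist measurable_const measurable_id) measurable_const
    rw [h1, Measure.infinitePi_pi _ (fun _ _ => hm.compl), Finset.prod_const,
      prob_compl_eq_one_sub hm, volume_tball_open]
    set v : ℝ := (V d (tdist w p)).toReal with hv
    have hVne : V d (tdist w p) ≠ ⊤ := ne_top_of_le_ne_top ENNReal.one_ne_top (V_le_one _)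
    have hV : V d (tdist w p) = ENNReal.ofReal v := (ENNReal.ofReal_toReal hVne).symm
    have huv : u ≤ v := by
      have := hR.trans (V_mono hw.le)
      rw [hV] at this
      exact (ENNReal.ofReal_le_ofReal_iff ENNReal.toReal_nonneg).1 this
    have hv1 : v ≤ 1 := by
      have := V_le_one (d := d) (tdist w p)
      rw [hV] at this
      exact ENNReal.ofReal_le_one.1 this
    obtain ⟨k, hk1, hk2⟩ := exists_nat_pow_near (x := v / u) (y := 2)
      ((one_le_div hu).2 huv) one_lt_two
    rw [le_div_iff₀ hu] at hk1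
    rw [div_lt_iff₀ hu] at hk2
    refine le_trans ?_ (ENNReal.le_tsum k)
    rw [Set.indicator_of_mem (by
      simp only [mem_ofPred_eq]
      rw [hV]
      exact ENNReal.ofReal_le_ofReal hk2.le), hV, ← ENNReal.ofReal_one,
      ← ENNReal.ofReal_sub _ (by linarith), ← ENNReal.ofReal_pow (by linarith)]
    apply ENNReal.ofReal_le_ofReal
    refine (one_sub_pow_le (by linarith) hv1 hI).trans ?_
    have hN' : (0 : ℝ) < I.card := by exact_mod_cast hI
    have hpos : (0 : ℝ) < I.card * (2 ^ k * u) := mul_pos hN' (mul_pos (pow_pos two_pos k) hu)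
    exact div_le_div_of_nonneg_left (by norm_num) (pow_pos hpos 2)
      (pow_le_pow_left₀ hpos.le (mul_le_mul_of_nonneg_left hk1 hN'.le) 2)
  · have h1 : {y : ℕ → Torus d | w ∈ U p R I y} = ∅ := by
      ext y
      simp [U, hw]
    rw [h1, measure_empty]
    exact zero_le

lemma lintegral_volume_U_le (hd : 0 < d) (p : Torus d) (R : ℝ) (I : Finset ℕ) (hI : 0 < I.card)
    {u : ℝ} (hu : 0 < u) (hR : ENNReal.ofReal u ≤ V d R) :
    ∫⁻ y, volume (U p R I y) ∂(PP d) ≤ ENNReal.ofReal (8 / (I.card ^ 2 * u)) := by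
  have hm := measurableSet_U p R I
  have h1 := Measure.prod_apply (μ := PP d) (ν := (volume : Measure (Torus d))) hm
  have h2 := Measure.prod_apply_symm (μ := PP d) (ν := (volume : Measure (Torus d))) hm
  have h3 : ∫⁻ y, volume (U p R I y) ∂(PP d) = ∫⁻ w, PP d {y | w ∈ U p R I y} := h1.symm.trans h2
  rw [h3]
  refine (lintegral_mono (PP_mem_U_le p R I hI hu hR)).trans ?_
  have hmk : ∀ k : ℕ, MeasurableSet
      {w : Torus d | V d (tdist w p) ≤ ENNReal.ofReal (2 ^ (k + 1) * u)} := fun k =>
    measurableSet_le (measurable_V_tdist p) measurable_const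
  rw [lintegral_tsum fun k => (measurable_const.indicator (hmk k)).aemeasurable]
  have hN' : (0 : ℝ) < I.card := by exact_mod_cast hI
  have h4 : ∀ k : ℕ, ∫⁻ w, Set.indicator
      {w : Torus d | V d (tdist w p) ≤ ENNReal.ofReal (2 ^ (k + 1) * u)}
      (fun _ => ENNReal.ofReal (2 / (I.card * (2 ^ k * u)) ^ 2)) w ≤
      ENNReal.ofReal (4 / (I.card ^ 2 * u) * (1 / 2) ^ k) := by
    intro k
    rw [lintegral_indicator_const (hmk k)]
    refine (mul_le_mul_right (volume_V_le hd p _) _).trans ?_
    rw [← ENNReal.ofReal_mul (by positivity)]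
    apply le_of_eq
    congr 1
    rw [one_div, inv_pow]
    field_simp
    ring
  refine (ENNReal.tsum_le_tsum h4).trans (le_of_eq ?_)
  rw [← ENNReal.ofReal_tsum_of_nonneg (fun k => by positivity)
    (summable_geometric_two.mul_left _), tsum_mul_left, tsum_geometric_two]
  congr 1
  field_simp
  ring

lemma PP_volume_U_gt (hd : 0 < d) (p : Torus d) (R : ℝ) (I : Finset ℕ) (hI : 0 < I.card)
    {u : ℝ} (hu : 0 < u) (hR : ENNReal.ofReal u ≤ V d R) {θ : ℝ} (hθ : 0 < θ) :
    PP d {y | ENNReal.ofReal θ < volume (U p R I y)} ≤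
      ENNReal.ofReal (8 / (I.card ^ 2 * u * θ)) := by
  have hm := measurable_measure_prodMk_left (ν := (volume : Measure (Torus d)))
    (measurableSet_U p R I)
  have h1 := mul_meas_ge_le_lintegral₀ (μ := PP d) hm.aemeasurable (ENNReal.ofReal θ)
  have h2 := h1.trans (lintegral_volume_U_le hd p R I hI hu hR)
  have h3 : PP d {y | ENNReal.ofReal θ < volume (U p R I y)} ≤
      PP d {y | ENNReal.ofReal θ ≤ volume (U p R I y)} := measure_mono fun y hy => by
    simp only [mem_ofPred_eq] at hy ⊢
    exact hy.le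
  refine h3.trans ?_
  have hN' : (0 : ℝ) < I.card := by exact_mod_cast hI
  have h4 : 8 / (I.card ^ 2 * u) = θ * (8 / (I.card ^ 2 * u * θ)) := by field_simp
  rw [h4, ENNReal.ofReal_mul hθ.le] at h2
  exact (ENNReal.mul_le_mul_iff_right (by simpa using hθ) ENNReal.ofReal_ne_top).1 h2

end Pool.Agent.MP_959362_pr.H69
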