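import Pool.Agent.MP_959362_pr.H69.Geom

namespace Pool.Agent.MP_959362_pr.H69

open MeasureTheory Metric Set

variable {d : ℕ}

lemma measurable_coord (i : Fin d) : Measurable fun s : E d => s i := by fun_prop

lemma one_add_pow_le_two (hd : 0 < d) : (1 + 1 / (2 * (d : ℝ))) ^ d ≤ 2 := by
  have hd' : (0 : ℝ) < d := by exact_mod_cast hd
  have h1 : (1 + 1 / (2 * (d : ℝ))) ≤ Real.exp (1 / (2 * d)) := by
    have := Real.add_one_le_exp (1 / (2 * (d : ℝ)))
    linarith
  have h2 := pow_le_pow_left₀ (by positivity) h1 d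
  rw [← Real.exp_nat_mul] at h2
  have h3 : (d : ℝ) * (1 / (2 * d)) = 1 / 2 := by field_simp
  rw [h3] at h2
  refine h2.trans ?_
  have h4 : Real.exp (1 / 2) * Real.exp (1 / 2) < 2 * 2 := by
    rw [← Real.exp_add]
    have := Real.exp_one_lt_d9
    norm_num at this ⊢
    linarith
  nlinarith [Real.exp_pos (1 / 2)]

lemma volume_slab_le (i : Fin d) {r : ℝ} (hr : 0 < r) :
    volume {s : E d | ‖s‖ ≤ r ∧ |s i| < 1 / (64 * d) * r} ≤
      ENNReal.ofReal (om d * r ^ d / 8) := by
  have hd : 0 < d := Fin.pos i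
  have hd' : (0 : ℝ) < d := by exact_mod_cast hd
  set g : ℝ := 1 / (64 * d) * r with hg
  have hg0 : 0 < g := by positivity
  set S : Set (E d) := {s : E d | ‖s‖ ≤ r ∧ |s i| < g} with hS
  have hSm : MeasurableSet S := by
    refine (measurableSet_le measurable_norm measurable_const).inter
      (measurableSet_lt (measurable_coord i).abs measurable_const)
  let e : E d := EuclideanSpace.single i 1
  let f : ℕ → Set (E d) := fun k => (fun s => s + -((2 * g * k) • e)) ⁻¹' S
  have hfm : ∀ k, MeasurableSet (f k) := fun k => measurable_add_const _ hSm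
  have hfv : ∀ k, volume (f k) = volume S := fun k => measure_preimage_add_right _ _ _
  have hcoord : ∀ (k : ℕ) (s : E d), s ∈ f k → |s i - 2 * g * k| < g := by
    intro k s hs
    have := hs.2
    simpa [e, sub_eq_add_neg] using this
  have hdisj : Set.PairwiseDisjoint (↑(Finset.range 16) : Set ℕ) f := by
    intro k _ l _ hkl
    refine Set.disjoint_left.2 fun s h1 h2 => ?_
    have a1 := abs_lt.1 (hcoord k s h1)
    have a2 := abs_lt.1 (hcoord l s h2)
    rcases lt_or_gt_of_ne hkl with h | h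
    · have : (k : ℝ) + 1 ≤ l := by exact_mod_cast h
      nlinarith [a1.1, a1.2, a2.1, a2.2]
    · have : (l : ℝ) + 1 ≤ k := by exact_mod_cast h
      nlinarith [a1.1, a1.2, a2.1, a2.2]
  have hsub : (⋃ k ∈ Finset.range 16, f k) ⊆ closedBall (0 : E d) ((1 + 1 / (2 * d)) * r) := by
    intro s hs
    simp only [mem_iUnion, Finset.mem_range] at hs
    obtain ⟨k, hk, hs⟩ := hs
    have h1 : ‖s + -((2 * g * k) • e)‖ ≤ r := hs.1
    have h2 : ‖(2 * g * k) • e‖ = 2 * g * k := by
      rw [norm_smul, PiLp.norm_single, Real.norm_eq_abs, abs_of_nonneg (by positivity)]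
      simp
    have h3 : ‖s‖ ≤ ‖s + -((2 * g * k) • e)‖ + ‖(2 * g * k) • e‖ := by
      have := norm_add_le (s + -((2 * g * k) • e)) ((2 * g * k) • e)
      simpa using this
    have hk' : (k : ℝ) ≤ 16 := by exact_mod_cast hk.le
    have h4 : 32 * g = 1 / (2 * d) * r := by
      rw [hg]
      field_simp
      norm_num
    rw [mem_closedBall_zero_iff]
    nlinarith
  have hsum := measure_biUnion_finset (μ := volume) hdisj fun k _ => hfm k
  simp only [hfv, Finset.sum_const, Finset.card_range, nsmul_eq_mul] at hsum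
  have hle := measure_mono (μ := volume) hsub
  rw [hsum, volume_closedBall_eq _ (by positivity)] at hle
  have hle2 : om d * ((1 + 1 / (2 * d)) * r) ^ d ≤ 16 * (om d * r ^ d / 8) := by
    rw [mul_pow]
    have := one_add_pow_le_two hd
    have h5 : 0 < om d * r ^ d := mul_pos om_pos (by positivity)
    nlinarith
  have hle3 := hle.trans (ENNReal.ofReal_le_ofReal hle2)
  rw [ENNReal.ofReal_mul (by norm_num)] at hle3
  have e16 : ENNReal.ofReal 16 = ((16 : ℕ) : ENNReal) := by simp
  rw [e16] at hle3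
  exact (ENNReal.mul_le_mul_iff_right (by simp) (by simp)).1 hle3

lemma volume_half_ge (i : Fin d) {r : ℝ} (hr : 0 < r) :
    ENNReal.ofReal (7 / 16 * (om d * r ^ d)) ≤
      volume {s : E d | ‖s‖ ≤ r ∧ 1 / (64 * d) * r ≤ s i} := by
  set g : ℝ := 1 / (64 * d) * r with hg
  set H : Set (E d) := {s : E d | ‖s‖ ≤ r ∧ g ≤ s i} with hH
  have hneg : volume (-H) = volume H := Measure.measure_neg _ _
  have hsub : closedBall (0 : E d) r ⊆ (H ∪ -H) ∪ {s : E d | ‖s‖ ≤ r ∧ |s i| < g} := by
    intro s hs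
    rw [mem_closedBall_zero_iff] at hs
    by_cases h1 : g ≤ s i
    · exact Or.inl (Or.inl ⟨hs, h1⟩)
    by_cases h2 : g ≤ -s i
    · refine Or.inl (Or.inr ?_)
      rw [Set.mem_neg]
      exact ⟨by simpa using hs, by simpa using h2⟩
    · refine Or.inr ⟨hs, abs_lt.2 ⟨by linarith, by linarith⟩⟩
  have h1 := (measure_mono (μ := volume) hsub).trans (measure_union_le _ _)
  have h2 := h1.trans (add_le_add (measure_union_le _ _) (volume_slab_le i hr))
  rw [hneg, volume_closedBall_eq _ hr.le] at h2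
  have h5 : 0 < om d * r ^ d := mul_pos om_pos (by positivity)
  have h3 : om d * r ^ d = (7 / 16 * (om d * r ^ d) + 7 / 16 * (om d * r ^ d)) +
      om d * r ^ d / 8 := by ring
  rw [h3, ENNReal.ofReal_add (by positivity) (by positivity),
    ENNReal.ofReal_add (by positivity) (by positivity), ← h3] at h2
  have h4 := ENNReal.le_of_add_le_add_right ENNReal.ofReal_ne_top h2
  by_contra hlt
  exact absurd h4 (not_le.2 (ENNReal.add_lt_add (not_le.1 hlt) (not_le.1 hlt)))

lemma volume_region_ge (i : Fin d) {r : ℝ} (hr : 0 < r) (p : E d) (F : Finset ℕ) (q : ℕ → E d)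
    (hF : F.card ≤ 192 * d) (hq : ∀ l ∈ F, 19 / 20 * r ≤ ‖p - q l‖)
    (h1 : (19 / 20 : ℝ) ^ d ≤ 1 / 8) (h2 : 192 * d * (91 / 100 : ℝ) ^ d ≤ 1 / 16) :
    ENNReal.ofReal (om d * r ^ d / 4) ≤
      volume {x : E d | 19 / 20 * r ≤ ‖x - p‖ ∧ ‖x - p‖ ≤ r ∧ 1 / (64 * d) * r ≤ (x - p) i ∧
        ∀ l ∈ F, 21 / 20 * r ≤ ‖x - q l‖} := by
  set G : Set (E d) := {x : E d | 19 / 20 * r ≤ ‖x - p‖ ∧ ‖x - p‖ ≤ r ∧
    1 / (64 * d) * r ≤ (x - p) i ∧ ∀ l ∈ F, 21 / 20 * r ≤ ‖x - q l‖} with hG
  set H : Set (E d) := {s : E d | ‖s‖ ≤ r ∧ 1 / (64 * d) * r ≤ s i} with hH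
  have hH1 : volume ((fun x => x + -p) ⁻¹' H) = volume H := measure_preimage_add_right _ _ _
  have hsub : (fun x => x + -p) ⁻¹' H ⊆ (G ∪ closedBall p (19 / 20 * r)) ∪
      ⋃ l ∈ F, closedBall ((1 / 2 : ℝ) • (p + q l)) (91 / 100 * r) := by
    intro x hx
    have hx1 : ‖x - p‖ ≤ r := by simpa [sub_eq_add_neg] using hx.1
    have hx2 : 1 / (64 * d) * r ≤ (x - p) i := by simpa [sub_eq_add_neg] using hx.2
    by_cases a1 : 19 / 20 * r ≤ ‖x - p‖
    · by_cases a2 : ∀ l ∈ F, 21 / 20 * r ≤ ‖x - q l‖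
      · exact Or.inl (Or.inl ⟨a1, hx1, hx2, a2⟩)
      · push Not at a2
        obtain ⟨l, hl, a2⟩ := a2
        refine Or.inr (mem_biUnion hl ?_)
        rw [mem_closedBall, dist_eq_norm]
        apply le_of_sq_le_sq _ (by positivity)
        rw [lens_bound]
        have e1 := pow_le_pow_left₀ (norm_nonneg _) hx1 2
        have e2 := pow_le_pow_left₀ (norm_nonneg _) a2.le 2
        have e3 := pow_le_pow_left₀ (by positivity) (hq l hl) 2
        nlinarith
    · refine Or.inl (Or.inr ?_)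
      rw [mem_closedBall, dist_eq_norm]
      linarith
  have h5 : 0 < om d * r ^ d := mul_pos om_pos (by positivity)
  have hb1 : volume (closedBall p (19 / 20 * r)) ≤ ENNReal.ofReal (om d * r ^ d / 8) := by
    rw [volume_closedBall_eq _ (by positivity), mul_pow]
    apply ENNReal.ofReal_le_ofReal
    nlinarith
  have hb2 : volume (⋃ l ∈ F, closedBall ((1 / 2 : ℝ) • (p + q l)) (91 / 100 * r)) ≤
      ENNReal.ofReal (om d * r ^ d / 16) := by
    refine (measure_biUnion_finset_le _ _).trans ?_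
    simp only [volume_closedBall_eq _ (show 0 ≤ 91 / 100 * r by positivity), Finset.sum_const,
      nsmul_eq_mul]
    rw [← ENNReal.ofReal_natCast, ← ENNReal.ofReal_mul (by positivity), mul_pow]
    apply ENNReal.ofReal_le_ofReal
    have hF' : (F.card : ℝ) ≤ 192 * d := by exact_mod_cast hF
    have h6 : (F.card : ℝ) * (91 / 100 : ℝ) ^ d ≤ 1 / 16 :=
      (mul_le_mul_of_nonneg_right hF' (by positivity)).trans h2
    nlinarith
  have h3 := (volume_half_ge i hr).trans (hH1.symm.le.trans ((measure_mono hsub).trans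
    ((measure_union_le _ _).trans (add_le_add ((measure_union_le _ _).trans
      (add_le_add le_rfl hb1)) hb2))))
  have h4 : 7 / 16 * (om d * r ^ d) = (om d * r ^ d / 4 + om d * r ^ d / 8) +
      om d * r ^ d / 16 := by ring
  rw [h4, ENNReal.ofReal_add (by positivity) (by positivity),
    ENNReal.ofReal_add (by positivity) (by positivity)] at h3
  exact ENNReal.le_of_add_le_add_right ENNReal.ofReal_ne_top
    (ENNReal.le_of_add_le_add_right ENNReal.ofReal_ne_top h3)

end Pool.Agent.MP_959362_pr.H69
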