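import Pool.Agent.MP_959362_pr.H69.Prob

namespace Pool.Agent.MP_959362_pr.H69

open MeasureTheory Metric Set

variable {d : ℕ}

/-- The parameters of the construction. -/
structure Par (d : ℕ) where
  ρ : ℕ → ℝ
  T : ℕ
  M : ℕ
  ε : ℝ
  i0 : Fin d
  i1 : Fin d
  hi : i0 ≠ i1
  ρ_pos : ∀ v, 0 < v → 0 < ρ v
  ρ_vol : ∀ v : ℕ, 0 < v → om d * ρ v ^ d = 1 / (16 * v)
  hM : 2 ≤ M
  hT : 3 ≤ T
  hd1 : 2 ^ 18 * (M : ℝ) ^ 4 ≤ (21 / 20 : ℝ) ^ d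
  hd2 : 192 * d * (91 / 100 : ℝ) ^ d ≤ 1 / 16
  hsum : ∀ k, ∑ j ∈ Finset.range k, ρ (T * M ^ (j + 1)) ≤ 1 / 16
  hε0 : 0 < ε
  hε1 : ε ≤ 1 / (64 * d) * ρ (T * M) / 160
  hε2 : 6 * ε ≤ 1 / (32 * (T * M ^ 2))

structure IsPath (P : Par d) (k : ℕ) (τ : ℕ → ℕ) : Prop where
  h0 : τ 0 = 0
  h1 : τ 1 = P.T * P.M
  hk : 1 ≤ k
  lo : ∀ j, 1 ≤ j → j ≤ k → P.T * P.M ^ j ≤ τ j
  up : ∀ j, 1 ≤ j → j ≤ k → 2 * τ j ≤ P.T * P.M ^ (j + 1)
  junk : ∀ j, k < j → τ j = 0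

namespace Par

variable (P : Par d)
include P

lemma d_pos : 0 < d := Fin.pos P.i0

lemma d_pos' : (0 : ℝ) < d := by exact_mod_cast P.d_pos

lemma one_le_d : (1 : ℝ) ≤ d := by exact_mod_cast P.d_pos

lemma TM_pos (j : ℕ) : 0 < P.T * P.M ^ j := by
  have := P.hT
  have := P.hM
  positivity

lemma six_le (j : ℕ) : 6 ≤ P.T * P.M ^ (j + 1) := by
  have h1 := P.hT
  have h2 : 2 ≤ P.M ^ (j + 1) := P.hM.trans (Nat.le_self_pow (by omega) _)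
  nlinarith

lemma ρ_le_mul {v w : ℕ} (hv : 0 < v) (hw : 0 < w) {c : ℝ} (hc : 0 < c)
    (h : (w : ℝ) ≤ c ^ d * v) : P.ρ v ≤ c * P.ρ w := by
  have hv' : (0 : ℝ) < v := by exact_mod_cast hv
  have hw' : (0 : ℝ) < w := by exact_mod_cast hw
  have h1 := P.ρ_vol v hv
  have h2 := P.ρ_vol w hw
  have h3 : om d * P.ρ v ^ d ≤ om d * (c * P.ρ w) ^ d := by
    rw [mul_pow, mul_left_comm, h1, h2, mul_one_div, div_le_div_iff₀ (by positivity)
      (by positivity)]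
    nlinarith
  have h4 := le_of_mul_le_mul_left h3 om_pos
  exact (pow_le_pow_iff_left₀ (P.ρ_pos v hv).le (mul_pos hc (P.ρ_pos w hw)).le
    P.d_pos.ne').1 h4

lemma ρ_anti {v w : ℕ} (hw : 0 < w) (h : w ≤ v) : P.ρ v ≤ P.ρ w := by
  have := P.ρ_le_mul (lt_of_lt_of_le hw h) hw one_pos (by simpa using h)
  simpa using this

lemma ρ_TM_le (j : ℕ) : P.ρ (P.T * P.M ^ (j + 1)) ≤ 1 / 16 := by
  refine le_trans ?_ (P.hsum (j + 1))
  exact Finset.single_le_sum (f := fun j => P.ρ (P.T * P.M ^ (j + 1)))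
    (fun i _ => (P.ρ_pos _ (P.TM_pos _)).le) (Finset.self_mem_range_succ j)

lemma M_sq_le : (P.M : ℝ) ^ 2 ≤ (21 / 20 : ℝ) ^ d := by
  refine le_trans ?_ P.hd1
  have : (2 : ℝ) ≤ P.M := by exact_mod_cast P.hM
  have h2 : (4 : ℝ) ≤ (P.M : ℝ) ^ 2 := by nlinarith
  nlinarith

lemma small_pow : (19 / 20 : ℝ) ^ d ≤ 1 / 8 := by
  have h1 := P.hd1
  have : (2 : ℝ) ≤ P.M := by exact_mod_cast P.hM
  have h2 : (1 : ℝ) ≤ (P.M : ℝ) ^ 4 := one_le_pow₀ (by linarith)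
  have h3 : (8 : ℝ) ≤ (21 / 20 : ℝ) ^ d := by nlinarith
  have h4 : (19 / 20 : ℝ) ^ d * (21 / 20 : ℝ) ^ d ≤ 1 := by
    rw [← mul_pow]
    exact pow_le_one₀ (by norm_num) (by norm_num)
  have h5 : (0 : ℝ) < (19 / 20 : ℝ) ^ d := by positivity
  nlinarith

lemma ε_le : P.ε ≤ P.ρ (P.T * P.M) / 160 := by
  refine P.hε1.trans ?_
  have h1 := P.one_le_d
  have h2 : 1 / (64 * (d : ℝ)) ≤ 1 := by
    rw [div_le_one (by linarith)]
    linarith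
  have h3 := P.ρ_pos _ (P.TM_pos 1)
  rw [pow_one] at h3
  nlinarith

/-- far threshold for the vertex `τ j` -/
noncomputable def R (j : ℕ) : ℝ := 21 / 20 * P.ρ (P.T * P.M ^ (j + 2))

lemma R_pos (j : ℕ) : 0 < P.R j := mul_pos (by norm_num) (P.ρ_pos _ (P.TM_pos _))

lemma R_le (j : ℕ) : P.R j ≤ 1 / 8 := by
  have := P.ρ_TM_le (j + 1)
  unfold R
  linarith

def Base (x : ℕ → Torus d) : Prop :=
  ‖rel (x 0) (x 1) - P.ε • EuclideanSpace.single P.i1 (1 : ℝ)‖ < P.ε * (P.ε / (16 * d)) ∧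
  ‖rel (x 0) (x 2) - (-P.ε) • EuclideanSpace.single P.i1 (1 : ℝ)‖ < P.ε * (P.ε / (16 * d)) ∧
  ‖rel (x 0) (x (P.T * P.M)) - (39 / 40 * P.ρ (P.T * P.M)) •
    EuclideanSpace.single P.i0 (1 : ℝ)‖ < P.ε / 16

def Step (τ : ℕ → ℕ) (Q : ℕ → E d) (j : ℕ) : Prop :=
  19 / 20 * P.ρ (τ (j + 1)) ≤ ‖Q (j + 1) - Q j‖ ∧ ‖Q (j + 1) - Q j‖ ≤ P.ρ (τ (j + 1)) ∧
  1 / (64 * d) * P.ρ (τ (j + 1)) ≤ (Q (j + 1) - Q j) P.i0 ∧
  ∀ l < j, 21 / 20 * P.ρ (τ (j + 1)) ≤ ‖Q (j + 1) - Q l‖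

end Par

noncomputable def Qv (τ : ℕ → ℕ) (x : ℕ → Torus d) (j : ℕ) : E d := rel (x 0) (x (τ j))

def blk (τ : ℕ → ℕ) : ℕ → Finset ℕ
  | 0 => {1, 2}
  | j + 1 => Finset.Ioo (max (τ j) 2) (τ (j + 1))

namespace Par

variable (P : Par d)

def G (τ : ℕ → ℕ) (j : ℕ) (x : ℕ → Torus d) : Prop :=
  P.Base x ∧ ∀ i < j, P.Step τ (Qv τ x) i

def Bad (τ : ℕ → ℕ) (k j : ℕ) (x : ℕ → Torus d) : Set (Torus d) :=
  ((⋃ i ∈ Finset.Icc (j + 1) k, {w | tdist w (x (τ i)) ≤ P.ρ (τ i)}) ∪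
    {w | tdist w (x (τ j)) ≤ P.R j ∧ tdist w (x (τ (j + 1))) ≤ P.R j}) ∪
    U (x (τ j)) (P.R j) (blk τ j) x

def S (τ : ℕ → ℕ) (j : ℕ) (x : ℕ → Torus d) : Prop :=
  volume (U (x (τ j)) (P.R j) (blk τ j) x) ≤ ENNReal.ofReal (1 / (32 * (P.T * P.M ^ (j + 2))))

def Ev (τ : ℕ → ℕ) (k j : ℕ) (x : ℕ → Torus d) : Prop :=
  P.G τ k x ∧ (∀ i < j, ∀ t ∈ blk τ (i + 1), x t ∉ P.Bad τ k i x) ∧ P.S τ j x

end Par

namespace IsPath

variable {P : Par d} {k : ℕ} {τ : ℕ → ℕ} (h : IsPath P k τ)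
include h

lemma six_le {j : ℕ} (h1 : 1 ≤ j) (hj : j ≤ k) : 6 ≤ τ j := by
  obtain ⟨i, rfl⟩ : ∃ i, j = i + 1 := ⟨j - 1, by omega⟩
  exact (P.six_le i).trans (h.lo _ h1 hj)

lemma two_mul_le {j : ℕ} (hj : j + 1 ≤ k) : 2 * τ j ≤ τ (j + 1) := by
  rcases Nat.eq_zero_or_pos j with rfl | h0
  · simp [h.h0]
  · exact (h.up j h0 (by omega)).trans (h.lo _ (by omega) hj)

lemma lt_succ {j : ℕ} (hj : j + 1 ≤ k) : τ j < τ (j + 1) := by
  have h1 := h.two_mul_le hj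
  have h2 := h.six_le (j := j + 1) (by omega) hj
  omega

lemma mono {i j : ℕ} (hij : i ≤ j) (hj : j ≤ k) : τ i ≤ τ j := by
  induction j, hij using Nat.le_induction with
  | base => exact le_rfl
  | succ j hij ih => exact (ih (by omega)).trans (h.lt_succ hj).le

lemma strict {i j : ℕ} (hij : i < j) (hj : j ≤ k) : τ i < τ j :=
  (h.lt_succ (by omega)).trans_le (h.mono hij hj)

lemma pow_mul_le {i j : ℕ} (hj : i + j ≤ k) : 2 ^ j * τ i ≤ τ (i + j) := by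
  induction j with
  | zero => simp
  | succ j ih =>
    have h1 := ih (by omega)
    have h2 := h.two_mul_le (j := i + j) hj
    rw [pow_succ, ← add_assoc]
    nlinarith

lemma ρ_pos {j : ℕ} (h1 : 1 ≤ j) (hj : j ≤ k) : 0 < P.ρ (τ j) :=
  P.ρ_pos _ (by have := h.six_le h1 hj; omega)

lemma ρ_le {j : ℕ} (hj : j + 1 ≤ k) : P.ρ (τ (j + 1)) ≤ P.ρ (P.T * P.M ^ (j + 1)) :=
  P.ρ_anti (P.TM_pos _) (h.lo _ (by omega) hj)

lemma ρ_le' {j : ℕ} (hj : j + 1 ≤ k) : P.ρ (τ (j + 1)) ≤ 1 / 16 :=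
  (h.ρ_le hj).trans (P.ρ_TM_le j)

lemma ρ_anti {i j : ℕ} (hi : 1 ≤ i) (hij : i ≤ j) (hj : j ≤ k) : P.ρ (τ j) ≤ P.ρ (τ i) :=
  P.ρ_anti (by have := h.six_le hi (hij.trans hj); omega) (h.mono hij hj)

lemma R_le {j : ℕ} (hj : j + 1 ≤ k) : P.R j ≤ 21 / 20 * P.ρ (τ (j + 1)) := by
  unfold Par.R
  have h1 : 2 * τ (j + 1) ≤ P.T * P.M ^ (j + 2) := h.up (j + 1) (by omega) hj
  have h2 := h.six_le (j := j + 1) (by omega) hj
  have := P.ρ_anti (v := P.T * P.M ^ (j + 2)) (w := τ (j + 1)) (by omega) (by omega)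
  linarith

lemma ρ_ratio {j : ℕ} (hj : j + 2 ≤ k) : P.ρ (τ (j + 1)) ≤ 21 / 20 * P.ρ (τ (j + 2)) := by
  have h1 := h.six_le (j := j + 1) (by omega) (by omega)
  have h2 := h.six_le (j := j + 2) (by omega) hj
  refine P.ρ_le_mul (by omega) (by omega) (by norm_num) ?_
  have h3 := h.up (j + 2) (by omega) hj
  have h4 := h.lo (j + 1) (by omega) (by omega)
  have h5 : τ (j + 2) ≤ P.M ^ 2 * τ (j + 1) := by
    calc τ (j + 2) ≤ P.T * P.M ^ (j + 2 + 1) := by omega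
      _ = P.M ^ 2 * (P.T * P.M ^ (j + 1)) := by ring
      _ ≤ P.M ^ 2 * τ (j + 1) := Nat.mul_le_mul_left _ h4
  have h6 : (τ (j + 2) : ℝ) ≤ (P.M : ℝ) ^ 2 * τ (j + 1) := by exact_mod_cast h5
  exact h6.trans (mul_le_mul_of_nonneg_right P.M_sq_le (by positivity))

lemma Qv_zero (x : ℕ → Torus d) : Qv τ x 0 = 0 := by
  rw [Qv, h.h0, rel_self]

lemma step_zero {x : ℕ → Torus d} (hB : P.Base x) : P.Step τ (Qv τ x) 0 := by
  obtain ⟨-, -, h3⟩ := hB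
  have hρ := P.ρ_pos _ (P.TM_pos 1)
  rw [pow_one] at hρ
  have hε := P.ε_le
  have hε0 := P.hε0
  unfold Par.Step
  rw [h.Qv_zero, zero_add, sub_zero, Qv, h.h1]
  set q := rel (x 0) (x (P.T * P.M))
  set c : E d := (39 / 40 * P.ρ (P.T * P.M)) • EuclideanSpace.single P.i0 (1 : ℝ) with hc
  have hcn : ‖c‖ = 39 / 40 * P.ρ (P.T * P.M) := by
    rw [hc, norm_smul, PiLp.norm_single, Real.norm_eq_abs, abs_of_pos (by positivity)]
    simp
  have e1 := abs_lt.1 ((abs_norm_sub_norm_le q c).trans_lt h3)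
  have e2 := abs_lt.1 ((abs_apply_le_norm (q - c) P.i0).trans_lt h3)
  have e3 : (q - c) P.i0 = q P.i0 - 39 / 40 * P.ρ (P.T * P.M) := by simp [hc]
  have h1 := P.one_le_d
  have h2 : 1 / (64 * (d : ℝ)) ≤ 1 / 2 := by
    rw [div_le_div_iff₀ (by linarith) (by norm_num)]
    linarith
  refine ⟨by linarith [e1.1], by linarith [e1.2], by nlinarith [e2.1], fun l hl => by omega⟩

lemma norm_Qv_le {x : ℕ → Torus d} {j : ℕ} (hj : j ≤ k) (hG : P.G τ j x) {i : ℕ} (hi : i ≤ j) :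
    ‖Qv τ x i‖ ≤ 1 / 16 := by
  have : ‖Qv τ x i‖ ≤ ∑ l ∈ Finset.range i, P.ρ (P.T * P.M ^ (l + 1)) := by
    induction i with
    | zero => simp [h.Qv_zero]
    | succ i ih =>
      rw [Finset.sum_range_succ]
      have h1 := (hG.2 i (by omega)).2.1
      have h2 := h.ρ_le (j := i) (by omega)
      have h3 := ih (by omega)
      have h4 := norm_add_le (Qv τ x (i + 1) - Qv τ x i) (Qv τ x i)
      rw [sub_add_cancel] at h4
      linarith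
  exact this.trans (P.hsum i)

lemma tdist_eq {x : ℕ → Torus d} {j : ℕ} (hj : j ≤ k) (hG : P.G τ j x) {i l : ℕ} (hi : i ≤ j)
    (hl : l ≤ j) : tdist (x (τ i)) (x (τ l)) = ‖Qv τ x i - Qv τ x l‖ := by
  apply tdist_eq_rel
  have h1 := h.norm_Qv_le hj hG hi
  have h2 := h.norm_Qv_le hj hG hl
  exact (norm_sub_le _ _).trans (by unfold Qv at h1 h2; linarith)

lemma drift {x : ℕ → Torus d} {j : ℕ} (hj : j ≤ k) (hG : P.G τ j x) (l m : ℕ) (hm : l + m ≤ j) :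
    m * (1 / (64 * d) * P.ρ (τ (l + m))) ≤ (Qv τ x (l + m) - Qv τ x l) P.i0 := by
  induction m with
  | zero => simp
  | succ m ih =>
    have h1 := ih (by omega)
    have h2 := (hG.2 (l + m) (by omega)).2.2.1
    rw [PiLp.sub_apply] at h1 h2 ⊢
    rw [← add_assoc]
    have hd := P.d_pos'
    rcases Nat.eq_zero_or_pos m with rfl | hm0
    · simpa using h2
    · have h3 := h.ρ_anti (i := l + m) (j := l + m + 1) (by omega) (by omega) (by omega)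
      have h4 : 1 / (64 * (d : ℝ)) * P.ρ (τ (l + m + 1)) ≤ 1 / (64 * d) * P.ρ (τ (l + m)) :=
        mul_le_mul_of_nonneg_left h3 (by positivity)
      have h5 := mul_le_mul_of_nonneg_left h4 (Nat.cast_nonneg m)
      push_cast
      linarith

lemma sep {x : ℕ → Torus d} {j : ℕ} (hj : j ≤ k) (hG : P.G τ j x) {i l : ℕ} (hi : i + 1 ≤ j)
    (hl : l ≤ i) : 19 / 20 * P.ρ (τ (i + 1)) ≤ ‖Qv τ x (i + 1) - Qv τ x l‖ := by
  rcases hl.eq_or_lt with rfl | hl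
  · exact (hG.2 l (by omega)).1
  · have h1 := (hG.2 i (by omega)).2.2.2 l hl
    have h2 := h.ρ_pos (j := i + 1) (by omega) (by omega)
    linarith

lemma mem_blk {j t : ℕ} (hj : j ≤ k) (ht : t ∈ blk τ j) : 0 < t ∧ (∀ l, τ l ≠ t) ∧
    (∀ l, j ≤ l → 1 ≤ l → l ≤ k → t < τ l) ∧ ∀ l, l < j → τ l < t := by
  rcases j with _ | j
  · simp only [blk, Finset.mem_insert, Finset.mem_singleton] at ht
    refine ⟨by omega, fun l => ?_, fun l _ h1 h2 => ?_, fun l hl => by omega⟩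
    · rcases Nat.eq_zero_or_pos l with rfl | h0
      · rw [h.h0]
        omega
      · by_cases hl : l ≤ k
        · have := h.six_le h0 hl
          omega
        · rw [h.junk l (by omega)]
          omega
    · have := h.six_le h1 h2
      omega
  · simp only [blk, Finset.mem_Ioo, max_lt_iff] at ht
    have a1 : ∀ l, j + 1 ≤ l → l ≤ k → t < τ l := fun l h1 h2 => ht.2.trans_le (h.mono h1 h2)
    have a2 : ∀ l, l < j + 1 → τ l < t := fun l h1 =>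
      (h.mono (by omega) (by omega)).trans_lt ht.1.1
    refine ⟨by omega, fun l => ?_, fun l h1 _ h2 => a1 l h1 h2, a2⟩
    by_cases h1 : l < j + 1
    · exact (a2 l h1).ne
    · by_cases hl : l ≤ k
      · exact (a1 l (by omega) hl).ne'
      · rw [h.junk l (by omega)]
        omega

lemma blk_lt {i j s t : ℕ} (hij : i < j) (hj : j ≤ k) (hs : s ∈ blk τ i) (ht : t ∈ blk τ j) :
    s < t := by
  rcases Nat.eq_zero_or_pos i with rfl | h0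
  · obtain ⟨j, rfl⟩ : ∃ l, j = l + 1 := ⟨j - 1, by omega⟩
    simp only [blk, Finset.mem_insert, Finset.mem_singleton, Finset.mem_Ioo, max_lt_iff] at hs ht
    omega
  · exact ((h.mem_blk (by omega) hs).2.2.1 i le_rfl h0 (by omega)).trans
      ((h.mem_blk hj ht).2.2.2 i hij)

lemma classify {j s : ℕ} (hj : j + 1 ≤ k) (hs : s < τ (j + 1)) :
    (∃ l ≤ j, s = τ l) ∨ ∃ i ≤ j + 1, s ∈ blk τ i := by
  induction j with
  | zero =>
    by_cases h0 : s = 0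
    · exact Or.inl ⟨0, le_rfl, by rw [h0, h.h0]⟩
    by_cases h2 : s ≤ 2
    · refine Or.inr ⟨0, by omega, ?_⟩
      simp only [blk, Finset.mem_insert, Finset.mem_singleton]
      omega
    · refine Or.inr ⟨1, le_rfl, ?_⟩
      simp only [blk, Finset.mem_Ioo, max_lt_iff, h.h0]
      omega
  | succ j ih =>
    rcases lt_trichotomy s (τ (j + 1)) with h1 | h1 | h1
    · rcases ih (by omega) h1 with ⟨l, hl, e⟩ | ⟨i, hi, e⟩
      · exact Or.inl ⟨l, by omega, e⟩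
      · exact Or.inr ⟨i, by omega, e⟩
    · exact Or.inl ⟨j + 1, le_rfl, h1⟩
    · refine Or.inr ⟨j + 2, le_rfl, ?_⟩
      have := h.six_le (j := j + 1) (by omega) (by omega)
      simp only [blk, Finset.mem_Ioo, max_lt_iff]
      omega

end IsPath

end Pool.Agent.MP_959362_pr.H69
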