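import Pool.Agent.MP_959362_pr.H69.Setup

namespace Pool.Agent.MP_959362_pr.H69

open MeasureTheory Metric Set

variable {d : ℕ}

lemma PP_rel_eq (b : Torus d) (t : ℕ) {A : Set (E d)} (hA : MeasurableSet A)
    (h : A ⊆ ball 0 (1 / 2)) : PP d {y | rel b (y t) ∈ A} = volume A := by
  rw [← volume_rel_eq b hA h]
  exact PP_eval_eq t (measurable_rel b hA)

lemma PP_rel_ball (b : Torus d) (t : ℕ) (c : E d) {r : ℝ} (hr : 0 < r) (h : ‖c‖ + r ≤ 1 / 2) :
    PP d {y | ‖rel b (y t) - c‖ < r} = ENNReal.ofReal (om d * r ^ d) := by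
  have hsub : ball c r ⊆ ball (0 : E d) (1 / 2) := by
    intro s hs
    rw [mem_ball, dist_eq_norm] at hs
    rw [mem_ball_zero_iff]
    have := norm_add_le (s - c) c
    rw [sub_add_cancel] at this
    linarith
  rw [← volume_ball_eq c hr, ← PP_rel_eq b t measurableSet_ball hsub]
  simp only [mem_ball, dist_eq_norm]

lemma norm_smul_single (c : ℝ) (i : Fin d) : ‖c • (EuclideanSpace.single i (1 : ℝ) : E d)‖ = |c| := by
  rw [norm_smul, PiLp.norm_single, Real.norm_eq_abs]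
  simp

lemma Par.δ_le (P : Par d) : P.ε / (16 * d) ≤ P.ε / 16 := by
  have h1 := P.one_le_d
  have h2 := P.hε0
  exact div_le_div_of_nonneg_left h2.le (by norm_num) (by linarith)

lemma Par.ε_small (P : Par d) : P.ε ≤ 1 / 2560 := by
  have h1 := P.ε_le
  have h2 := P.ρ_TM_le 0
  rw [zero_add, pow_one] at h2
  linarith

lemma Par.base_pos (P : Par d) : ∃ β : ℝ, 0 < β ∧ ENNReal.ofReal β ≤ PP d {x | P.Base x} := by
  have hε0 := P.hε0
  have hd := P.d_pos'
  have hδ := P.δ_le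
  have hε := P.ε_small
  have hρ := P.ρ_TM_le 0
  have hρ0 := P.ρ_pos _ (P.TM_pos 1)
  have h6 := P.six_le 0
  rw [zero_add, pow_one] at hρ h6
  rw [pow_one] at hρ0
  have hr : 0 < P.ε * (P.ε / (16 * d)) := by positivity
  have hr2 : P.ε * (P.ε / (16 * d)) ≤ 1 / 4 := by nlinarith
  set c1 := ENNReal.ofReal (om d * (P.ε * (P.ε / (16 * d))) ^ d)
  set c3 := ENNReal.ofReal (om d * (P.ε / 16) ^ d)
  set B1 : Set (ℕ → Torus d) := {x | ‖rel (x 0) (x 1) - P.ε • EuclideanSpace.single P.i1 (1 : ℝ)‖ <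
    P.ε * (P.ε / (16 * d))}
  set B2 : Set (ℕ → Torus d) := {x | ‖rel (x 0) (x 1) - P.ε • EuclideanSpace.single P.i1 (1 : ℝ)‖ <
    P.ε * (P.ε / (16 * d)) ∧ ‖rel (x 0) (x 2) - (-P.ε) • EuclideanSpace.single P.i1 (1 : ℝ)‖ <
    P.ε * (P.ε / (16 * d))}
  have s1 : c1 * PP d univ ≤ PP d B1 := by
    refine resample_bound {1} _ _ _ fun x _ => ?_
    refine (PP_rel_ball (x 0) 1 (P.ε • EuclideanSpace.single P.i1 (1 : ℝ)) hr ?_).symm.le.trans
      (measure_mono fun y hy => ?_)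
    · rw [norm_smul_single, abs_of_pos hε0]
      linarith
    · simpa [B1, Finset.piecewise] using hy
  have s2 : c1 * PP d B1 ≤ PP d B2 := by
    refine resample_bound {2} _ _ _ fun x hx => ?_
    refine (PP_rel_ball (x 0) 2 ((-P.ε) • EuclideanSpace.single P.i1 (1 : ℝ)) hr ?_).symm.le.trans
      (measure_mono fun y hy => ?_)
    · rw [norm_smul_single, abs_neg, abs_of_pos hε0]
      linarith
    · simp only [B1, B2, mem_ofPred_eq] at hx hy ⊢
      simpa [Finset.piecewise] using And.intro hx hy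
  have s3 : c3 * PP d B2 ≤ PP d {x | P.Base x} := by
    refine resample_bound {P.T * P.M} _ _ _ fun x hx => ?_
    refine (PP_rel_ball (x 0) (P.T * P.M) ((39 / 40 * P.ρ (P.T * P.M)) •
      EuclideanSpace.single P.i0 (1 : ℝ)) (r := P.ε / 16) (by positivity) ?_).symm.le.trans
      (measure_mono fun y hy => ?_)
    · rw [norm_smul_single, abs_of_pos (by positivity)]
      linarith
    · simp only [B2, mem_ofPred_eq, Par.Base] at hx hy ⊢
      rw [Finset.piecewise_eq_of_notMem _ _ _ (i := 0) (by rw [Finset.mem_singleton]; omega),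
        Finset.piecewise_eq_of_notMem _ _ _ (i := 1) (by rw [Finset.mem_singleton]; omega),
        Finset.piecewise_eq_of_notMem _ _ _ (i := 2) (by rw [Finset.mem_singleton]; omega),
        Finset.piecewise_eq_of_mem _ _ _ (Finset.mem_singleton_self _)]
      exact ⟨hx.1, hx.2, hy⟩
  have hom := om_pos (d := d)
  refine ⟨(om d * (P.ε / 16) ^ d) * ((om d * (P.ε * (P.ε / (16 * d))) ^ d) *
    (om d * (P.ε * (P.ε / (16 * d))) ^ d)), by positivity, ?_⟩
  rw [ENNReal.ofReal_mul (by positivity), ENNReal.ofReal_mul (p := om d * _) (by positivity)]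
  rw [measure_univ, mul_one] at s1
  exact (mul_le_mul_right ((mul_le_mul_right s1 _).trans s2) _).trans s3

namespace IsPath

variable {P : Par d} {k : ℕ} {τ : ℕ → ℕ} (h : IsPath P k τ)
include h

lemma G_congr {x z : ℕ → Torus d} {j : ℕ} (h1 : 1 ≤ j) (e1 : z 1 = x 1) (e2 : z 2 = x 2)
    (e : ∀ l ≤ j, z (τ l) = x (τ l)) (hG : P.G τ j x) : P.G τ j z := by
  have e0 : z 0 = x 0 := by simpa [h.h0] using e 0 (by omega)
  have e3 : z (P.T * P.M) = x (P.T * P.M) := by simpa [h.h1] using e 1 h1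
  have eQ : ∀ l ≤ j, Qv τ z l = Qv τ x l := fun l hl => by rw [Qv, Qv, e0, e l hl]
  refine ⟨?_, fun i hi => ?_⟩
  · have := hG.1
    unfold Par.Base at this ⊢
    rwa [e0, e1, e2, e3]
  · have := hG.2 i hi
    unfold Par.Step at this ⊢
    rw [eQ (i + 1) hi, eQ i hi.le]
    refine ⟨this.1, this.2.1, this.2.2.1, fun l hl => ?_⟩
    rw [eQ l (by omega)]
    exact this.2.2.2 l hl

lemma path_step {j : ℕ} (h1 : 1 ≤ j) (hj : j + 1 ≤ k) :
    ENNReal.ofReal (1 / (64 * τ (j + 1))) * PP d {x | P.G τ j x} ≤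
      PP d {x | P.G τ (j + 1) x} := by
  refine resample_bound {τ (j + 1)} _ _ _ fun x hx => ?_
  have hG : P.G τ j x := hx
  set r := P.ρ (τ (j + 1)) with hr
  have hr0 : 0 < r := h.ρ_pos (by omega) hj
  have hr1 : r ≤ 1 / 16 := h.ρ_le' hj
  have h6 := h.six_le (j := j + 1) (by omega) hj
  have hrj : r ≤ P.ρ (τ j) := h.ρ_anti h1 (by omega) hj
  have hd := P.d_pos'
  have hq : ∀ l ∈ Finset.Ico (j - 192 * d) j, 19 / 20 * r ≤ ‖Qv τ x j - Qv τ x l‖ := by
    intro l hl
    rw [Finset.mem_Ico] at hl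
    obtain ⟨i, rfl⟩ : ∃ i, j = i + 1 := ⟨j - 1, by omega⟩
    have := h.sep (by omega) hG (i := i) le_rfl (l := l) (by omega)
    linarith
  have hreg := volume_region_ge P.i0 hr0 (Qv τ x j) (Finset.Ico (j - 192 * d) j) (Qv τ x)
    (by rw [Nat.card_Ico]; omega) hq P.small_pow P.hd2
  set Γ : Set (E d) := {s : E d | 19 / 20 * r ≤ ‖s - Qv τ x j‖ ∧ ‖s - Qv τ x j‖ ≤ r ∧
    1 / (64 * d) * r ≤ (s - Qv τ x j) P.i0 ∧
    ∀ l ∈ Finset.Ico (j - 192 * d) j, 21 / 20 * r ≤ ‖s - Qv τ x l‖} with hΓ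
  have hΓm : MeasurableSet Γ := by
    rw [hΓ, measurableSet_setOfPred]
    refine Measurable.and ?_ (Measurable.and ?_ (Measurable.and ?_
      (Measurable.forall fun l => measurable_const.imp ?_)))
    all_goals rw [← measurableSet_setOfPred]
    · exact measurableSet_le measurable_const (by fun_prop)
    · exact measurableSet_le (by fun_prop) measurable_const
    · exact measurableSet_le measurable_const (by fun_prop)
    · exact measurableSet_le measurable_const (by fun_prop)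
  have hΓb : Γ ⊆ ball 0 (1 / 2) := by
    intro s hs
    rw [mem_ball_zero_iff]
    have e1 := norm_add_le (s - Qv τ x j) (Qv τ x j)
    rw [sub_add_cancel] at e1
    have e2 := h.norm_Qv_le (by omega) hG (i := j) le_rfl
    linarith [hs.2.1]
  have hval : om d * r ^ d / 4 = 1 / (64 * τ (j + 1)) := by
    rw [hr, P.ρ_vol _ (by omega)]
    have : (0 : ℝ) < τ (j + 1) := by exact_mod_cast (by omega : 0 < τ (j + 1))
    field_simp
    norm_num
  rw [hval, ← PP_rel_eq (x 0) (τ (j + 1)) hΓm hΓb] at hreg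
  refine hreg.trans (measure_mono fun y hy => ?_)
  have hy' : rel (x 0) (y (τ (j + 1))) ∈ Γ := hy
  set z := ({τ (j + 1)} : Finset ℕ).piecewise y x with hz
  have ez : ∀ t, t < τ (j + 1) → z t = x t := fun t ht =>
    Finset.piecewise_eq_of_notMem _ _ _ (by simp; omega)
  have eτ : ∀ l ≤ j, z (τ l) = x (τ l) := fun l hl => ez _ (h.strict (by omega) hj)
  have hGz : P.G τ j z := h.G_congr h1 (ez 1 (by omega)) (ez 2 (by omega)) eτ hG
  have eQ : ∀ l ≤ j, Qv τ z l = Qv τ x l := fun l hl => by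
    rw [Qv, Qv, ez 0 (by omega), eτ l hl]
  have eQ1 : Qv τ z (j + 1) = rel (x 0) (y (τ (j + 1))) := by
    rw [Qv, ez 0 (by omega), hz, Finset.piecewise_eq_of_mem _ _ _ (by simp)]
  refine ⟨hGz.1, fun i hi => ?_⟩
  rcases (Nat.lt_succ_iff.1 hi).eq_or_lt with rfl | hi
  · unfold Par.Step
    rw [eQ1, eQ i le_rfl]
    refine ⟨hy'.1, hy'.2.1, hy'.2.2.1, fun l hl => ?_⟩
    rw [eQ l hl.le]
    by_cases hl2 : i - 192 * d ≤ l
    · exact hy'.2.2.2 l (Finset.mem_Ico.2 ⟨hl2, hl⟩)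
    · obtain ⟨m, rfl⟩ : ∃ m, i = l + m := ⟨i - l, by omega⟩
      have a1 := h.drift (by omega) hG l m le_rfl
      have a2 := (le_abs_self _).trans (abs_apply_le_norm (Qv τ x (l + m) - Qv τ x l) P.i0)
      have a3 : (192 * d : ℝ) ≤ m := by exact_mod_cast (by omega : 192 * d ≤ m)
      have a4 : 3 * r ≤ m * (1 / (64 * d) * P.ρ (τ (l + m))) := by
        have : 3 * r = 192 * d * (1 / (64 * d) * r) := by
          field_simp
          norm_num
        rw [this]
        gcongr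
      have a5 := norm_sub_le (rel (x 0) (y (τ (l + m + 1))) - Qv τ x l)
        (rel (x 0) (y (τ (l + m + 1))) - Qv τ x (l + m))
      rw [sub_sub_sub_cancel_left] at a5
      linarith [hy'.2.1]
  · exact hGz.2 i hi

lemma prob_G {β : ℝ} (hβ : ENNReal.ofReal β ≤ PP d {x | P.Base x}) {j : ℕ} (hj : j + 1 ≤ k) :
    ENNReal.ofReal (β * ∏ i ∈ Finset.range j, 1 / (64 * (τ (i + 2) : ℝ))) ≤
      PP d {x | P.G τ (j + 1) x} := by
  induction j with
  | zero =>
    simp only [Finset.range_zero, Finset.prod_empty, mul_one]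
    refine hβ.trans (measure_mono fun x hx => ⟨hx, fun i hi => ?_⟩)
    obtain rfl : i = 0 := by omega
    exact h.step_zero hx
  | succ j ih =>
    refine le_trans ?_ (h.path_step (j := j + 1) (by omega) hj)
    rw [Finset.prod_range_succ, ← mul_assoc, mul_comm, ENNReal.ofReal_mul (by positivity)]
    exact mul_le_mul_right (ih (by omega)) _

end IsPath

lemma cage_bound {Y Z : E d} {i : Fin d} {ε σ : ℝ} (hε : 0 < ε) (hε1 : ε ≤ 1)
    (hσ : σ = 1 ∨ σ = -1) (hY : ∀ l, |Y l| ≤ 1 / 2)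
    (hZ : ‖Z - (σ * ε) • EuclideanSpace.single i (1 : ℝ)‖ < ε * (ε / (16 * d)))
    (h : ‖Y‖ ≤ ‖Y - Z‖) : σ * Y i ≤ 3 * ε := by
  have hd : (1 : ℝ) ≤ d := by exact_mod_cast Fin.pos i
  set w := Z - (σ * ε) • EuclideanSpace.single i (1 : ℝ) with hw
  have hσ2 : |σ * ε| = ε := by
    rcases hσ with rfl | rfl <;> simp [abs_of_pos hε]
  have hδ : ε / (16 * d) ≤ 1 := by
    rw [div_le_one (by linarith)]
    linarith
  have hZn : ‖Z‖ ≤ 2 * ε := by
    have := norm_add_le w ((σ * ε) • EuclideanSpace.single i (1 : ℝ))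
    rw [hw, sub_add_cancel, norm_smul_single, hσ2] at this
    nlinarith
  have hYn : ‖Y‖ ≤ d := by
    apply le_of_sq_le_sq _ (by linarith)
    rw [EuclideanSpace.real_norm_sq_eq]
    calc ∑ l, Y l ^ 2 ≤ ∑ _l : Fin d, (1 : ℝ) := Finset.sum_le_sum fun l _ => by
          have := abs_le.1 (hY l)
          nlinarith [this.1, this.2]
      _ = d := by simp
      _ ≤ (d : ℝ) ^ 2 := by nlinarith
  have h1 := pow_le_pow_left₀ (norm_nonneg _) h 2
  rw [norm_sub_sq_real] at h1
  have h2 : inner ℝ Y Z = inner ℝ Y w + σ * ε * Y i := by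
    rw [hw, inner_sub_right, inner_smul_right, EuclideanSpace.inner_single_right]
    simp
  have h3 := abs_le.1 (abs_real_inner_le_norm Y w)
  have h4 : ‖Y‖ * ‖w‖ ≤ d * (ε * (ε / (16 * d))) :=
    mul_le_mul hYn hZ.le (norm_nonneg _) (by linarith)
  have h5 : d * (ε * (ε / (16 * d))) = ε * ε / 16 := by field_simp
  have h6 := pow_le_pow_left₀ (norm_nonneg _) hZn 2
  have h7 : ε * (σ * Y i) ≤ ε * (3 * ε) := by nlinarith [h3.1]
  exact le_of_mul_le_mul_left h7 hε

lemma IsPath.S_zero {P : Par d} {k : ℕ} {τ : ℕ → ℕ} (h : IsPath P k τ) {x : ℕ → Torus d}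
    (hB : P.Base x) : P.S τ 0 x := by
  unfold Par.S
  rw [h.h0]
  have hε0 := P.hε0
  have hε := P.ε_small
  have hsub : U (x 0) (P.R 0) (blk τ 0) x ⊆
      (fun w : Torus d => w P.i1) ⁻¹' closedBall (x 0 P.i1) (3 * P.ε) := by
    intro w hw
    have a1 := hw.2 1 (by simp [blk])
    have a2 := hw.2 2 (by simp [blk])
    rw [tdist_eq_norm_rel] at a1 a2
    have b1 := cage_bound (σ := 1) hε0 (by linarith) (Or.inl rfl) (abs_lift_le _)
      (by simpa using hB.1) (a1.trans (tdist_le_rel (x 0) _ _))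
    have b2 := cage_bound (σ := -1) hε0 (by linarith) (Or.inr rfl) (abs_lift_le _)
      (by simpa using hB.2.1) (a2.trans (tdist_le_rel (x 0) _ _))
    simp only [mem_preimage, mem_closedBall, dist_eq_norm]
    have c1 : w P.i1 - x 0 P.i1 = ((lift (w - x 0) P.i1 : ℝ) : UnitAddCircle) :=
      (congrFun (proj_lift (w - x 0)) P.i1).symm
    rw [c1]
    refine QuotientAddGroup.norm_mk_le_norm.trans ?_
    rw [Real.norm_eq_abs, abs_le]
    constructor <;> linarith
  refine (measure_mono hsub).trans ?_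
  have hmp := measurePreserving_eval (fun _ : Fin d => (volume : Measure UnitAddCircle)) P.i1
  refine (hmp.measure_preimage_le _).trans ?_
  rw [AddCircle.volume_closedBall]
  apply ENNReal.ofReal_le_ofReal
  have := P.hε2
  refine (min_le_right _ _).trans ?_
  rw [zero_add]
  linarith

end Pool.Agent.MP_959362_pr.H69
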